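import Pool.Agent.MP_8c549f_pr.PK.Spec

/-! The mean height of a block is close to one. -/

set_option autoImplicit false

namespace Pool.Agent.MP_8c549f_pr.PK

open MeasureTheory Filter Topology Real
open scoped ENNReal NNReal

namespace BoneM

variable {D : ℕ}

theorem BB_le {p lam ρ : ℝ} (h0 : 0 ≤ ρ) (h1 : ρ ≤ 1 / 4)
    (h : ∀ m : ℕ, SS {l : List (Step D) | Block l ∧ lev l = (m + 1 : ℕ)} (wb true p lam) ≤
      ENNReal.ofReal (ρ ^ m)) : BB D p lam ≤ ENNReal.ofReal (1 + 4 * ρ) := by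
  have a : BB D p lam ≤ ∑' m : ℕ, ENNReal.ofReal ((2 * ρ) ^ m) := by
    rw [BB, SS_fiber _ fun l => (lev l).toNat - 1]
    refine ENNReal.tsum_le_tsum fun m => ?_
    have b : ((m + 1 : ℕ) : ℝ≥0∞) * ENNReal.ofReal (ρ ^ m) ≤ ENNReal.ofReal ((2 * ρ) ^ m) := by
      rw [← ENNReal.ofReal_natCast, ← ENNReal.ofReal_mul (Nat.cast_nonneg _), mul_pow]
      refine ENNReal.ofReal_le_ofReal (mul_le_mul_of_nonneg_right ?_ (pow_nonneg h0 _))
      exact_mod_cast Nat.lt_two_pow_self
    refine le_trans ?_ ((mul_le_mul' le_rfl (h m)).trans b)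
    rw [← SS_mul_left]
    refine SS_mono (fun l hl => ⟨hl.1, ?_⟩) fun l hl => ?_
    · have h2 := Block.lev_pos hl.1
      have h3 : (lev l).toNat - 1 = m := hl.2
      omega
    · have h2 := Block.lev_pos hl.1
      have h3 : (lev l).toNat - 1 = m := hl.2
      rw [show (lev l).toNat = m + 1 by omega]
  refine a.trans ?_
  rw [← ENNReal.ofReal_tsum_of_nonneg (fun m => by positivity)
    (summable_geometric_of_lt_one (by positivity) (by linarith)),
    tsum_geometric_of_lt_one (by positivity) (by linarith)]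
  refine ENNReal.ofReal_le_ofReal ?_
  rw [inv_le_iff_one_le_mul₀ (by linarith)]
  nlinarith

theorem exp_small {c δ : ℝ} (hc : 0 < c) (hδ : 0 < δ) {μ : ℝ} (h : 1 / (c * δ) ≤ μ) :
    exp (-(c * μ)) ≤ δ := by
  rw [div_le_iff₀ (by positivity)] at h
  rw [exp_neg, inv_le_iff_one_le_mul₀ (exp_pos _)]
  nlinarith [mul_le_mul_of_nonneg_left (add_one_le_exp (c * μ)) hδ.le]

end BoneM

open BoneM in
theorem bone : BONEStmt := by
  intro D hD ζ hζ
  have hD1 : 1 ≤ D := by omega
  obtain ⟨c, e1, hc, he1, hH⟩ := htS D hD1 1 one_pos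
  obtain ⟨C, e2, hC, he2, hR⟩ := retS D hD1 1 one_pos
  obtain ⟨e3, he3, hN⟩ := nice D hD1 1 one_pos
  obtain ⟨e4, he4, hO⟩ := oneS D hD1 1 one_pos
  set δ := min (1 / 4) (min (ζ / 4) (ζ / (2 * C))) with hδ
  have δ0 : 0 < δ := by positivity
  have δ1 : δ ≤ 1 / 4 := min_le_left _ _
  have δ2 : δ ≤ ζ / 4 := (min_le_right _ _).trans (min_le_left _ _)
  have δ3 : δ * (2 * C) ≤ ζ :=
    (le_div_iff₀ (by positivity)).1 ((min_le_right _ _).trans (min_le_right _ _))
  obtain ⟨e5, he5, hW⟩ := win_mu hD (max 1 (max (1 / (c * δ)) (1 / (1 / 2 * δ))))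
  refine ⟨min (min e1 e2) (min (min e3 e4) e5), by positivity, fun p x hp p1 w1 w2 => ?_⟩
  have k : ∀ {e : ℝ}, min (min e1 e2) (min (min e3 e4) e5) ≤ e → 1 - e ≤ p := fun h => by linarith
  obtain ⟨μ, m1, m2, p0, m3, -⟩ := hW p x (k (by simp)) p1 w1 w2
  have μ1 : 1 ≤ μ := (le_max_left _ _).trans m1
  have μ2 := exp_small hc δ0 (((le_max_left _ _).trans (le_max_right _ _)).trans m1)
  have μ3 := exp_small (by norm_num : (0 : ℝ) < 1 / 2) δ0
    (((le_max_right _ _).trans (le_max_right _ _)).trans m1)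
  have x1 : 1 ≤ x := μ1.trans m3
  have hp0 : 0 ≤ p := by linarith
  obtain ⟨-, a2, a3, a4⟩ := qrS D p x hp0 p1.le
  have a5 := a4 (hN p x (k (by simp)) p1.le x1).1
  rw [← a2]
  constructor
  · have b1 : ∑' i, Ret D p x i ≤ ENNReal.ofReal ζ := by
      calc ∑' i, Ret D p x i ≤ ∑' i : ℕ, ENNReal.ofReal (C * δ * (1 / 2) ^ i) := by
            refine ENNReal.tsum_le_tsum fun i => (hR p x μ (k (by simp)) p1.le μ1 m3 m2.le i).trans
              (ENNReal.ofReal_le_ofReal ?_)
            rw [show -μ * ((i : ℝ) + 1) / 2 = -(1 / 2 * μ) + i * -(1 / 2 * μ) by ring, exp_add,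
              exp_nat_mul, ← mul_assoc]
            gcongr
            linarith
        _ ≤ _ := by
            rw [← ENNReal.ofReal_tsum_of_nonneg (fun i => by positivity)
              (summable_geometric_two.mul_left _), tsum_mul_left, tsum_geometric_two]
            exact ENNReal.ofReal_le_ofReal (by linarith)
    have b2 : ENNReal.ofReal (1 - ζ) ≤ q1 D p x := by
      rw [ENNReal.ofReal_sub _ hζ.le, ENNReal.ofReal_one, tsub_le_iff_right]
      exact a5.trans (add_le_add le_rfl b1)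
    have b4 : 1 ≤ BB D p x := (hO p x (k (by simp)) p1.le x1).2.1.ge.trans
      (sump D p x hp0 p1.le).2.2.2.2.2.2.2
    exact b2.trans (le_mul_of_one_le_left' b4)
  · refine (mul_le_of_le_one_right' a3).trans ((BB_le δ0.le δ1 fun m => ?_).trans
      (ENNReal.ofReal_le_ofReal (by linarith)))
    refine ((recS D p x hp0 p1.le).2.2.1 m).trans
      ((hH p x μ (k (by simp)) p1.le μ1 m3 m2.le m).trans (ENNReal.ofReal_le_ofReal ?_))
    rw [show -c * μ * (m : ℝ) = m * -(c * μ) by ring, exp_nat_mul]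
    gcongr

end Pool.Agent.MP_8c549f_pr.PK
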