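import Pool.Agent.MP_8c549f_pr.PK.Spec

/-! The time spent in bushes: upper bound at the predicted place, lower bound in the window. -/

set_option autoImplicit false

namespace Pool.Agent.MP_8c549f_pr.PK

open MeasureTheory Filter Topology Real
open scoped ENNReal NNReal

namespace FulM

theorem up_real {D w r E M y : ℝ} (hD : 1 ≤ D) (w0 : 0 < w) (w1 : w ≤ 1 / 8) (r0 : 0 < r)
    (r1 : r ≤ 1) (E0 : 0 < E) (M0 : 0 ≤ M) (hy : y ≤ 1 - r / D + 3 * (w / D) * r)
    (h : M ≤ w / D * (r * M + r ^ 2 * (2 * E)) + (2 * r ^ 2 * E + y * M)) :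
    (1 / (2 * D) + w / D) * M + w / D * (r ^ 2 * (2 * E)) ≤ (1 + 18 * w) * (r * E) := by
  have D0 : 0 < D := by linarith
  obtain ⟨N, rfl⟩ : ∃ N, M = D * N := ⟨M / D, by field_simp⟩
  have N0 : 0 ≤ N := (mul_nonneg_iff_of_pos_left D0).1 M0
  have z1 : w / D ≤ w := div_le_self w0.le hD
  have z0 : 0 < w / D := by positivity
  have a1 : y * (D * N) ≤ (1 - r / D + 3 * (w / D) * r) * (D * N) :=
    mul_le_mul_of_nonneg_right hy M0
  have a2 : (1 - r / D + 3 * (w / D) * r) * (D * N) = D * N - r * N + 3 * w * r * N := by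
    field_simp
  have a3 : w / D * (r * (D * N)) = w * r * N := by field_simp
  have a4 : w / D * (r ^ 2 * (2 * E)) ≤ w * (r ^ 2 * (2 * E)) := by gcongr
  have a5 : r * ((1 - 4 * w) * N) ≤ r * ((2 + 2 * w) * (r * E)) := by nlinarith
  have a6 := le_of_mul_le_mul_left a5 r0
  have a7 : (1 / (2 * D) + w / D) * (D * N) = (1 / 2 + w) * N := by field_simp
  have rE : 0 < r * E := by positivity
  have a8 : w * (r ^ 2 * (2 * E)) ≤ 2 * w * (r * E) := by
    nlinarith [mul_le_mul_of_nonneg_right r1 (mul_pos w0 rE).le]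
  have a9 : (1 / 2 + w) * N ≤ (1 + 16 * w) * (r * E) := by
    refine le_of_mul_le_mul_left ?_ (show 0 < 1 - 4 * w by linarith)
    have b1 := mul_le_mul_of_nonneg_left a6 (show 0 ≤ 1 / 2 + w by linarith)
    have b2 : (1 / 2 + w) * (2 + 2 * w) ≤ (1 - 4 * w) * (1 + 16 * w) := by nlinarith
    nlinarith [mul_le_mul_of_nonneg_right b2 rE.le]
  rw [a7]
  linarith

end FulM

open FulM

theorem fu (hU : MRUStmt) (hN : NASStmt) (hF : FVStmt) : FUStmt := by
  intro D hD ζ hζ
  have hD1 : 1 ≤ D := by omega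
  have D1 : (1 : ℝ) ≤ D := by exact_mod_cast hD1
  set w := min (1 / 8) (ζ / 18) with hw
  have w0 : 0 < w := by positivity
  have w1 : w ≤ 1 / 8 := min_le_left _ _
  have w2 : w ≤ ζ / 18 := min_le_right _ _
  have z0 : 0 < w / D := by positivity
  have z1 : w / D ≤ w := div_le_self w0.le D1
  obtain ⟨e1, he1, hN⟩ := hN D hD 3 (by norm_num) _ z0
  obtain ⟨e2, he2, hF⟩ := hF D hD _ z0
  obtain ⟨e3, he3, hM⟩ := mfinS D hD1
  obtain ⟨e4, he4, hW⟩ := win_mu hD 0
  refine ⟨min (min e1 e2) (min (min e3 e4) ((w / D) ^ 2)), by positivity,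
    fun p x hp p1 hx h => ?_⟩
  have k : ∀ {e : ℝ}, min (min e1 e2) (min (min e3 e4) ((w / D) ^ 2)) ≤ e → 1 - e ≤ p :=
    fun h => by linarith
  have ε0 : 0 < 1 - p := by linarith
  set r := √(1 - p) with hr
  have r0 : 0 < r := sqrt_pos.2 ε0
  have rr : r ^ 2 = 1 - p := sq_sqrt ε0.le
  have r1 : r ≤ w / D := sqrt_le_iff.2 ⟨z0.le, by linarith [k (e := (w / D) ^ 2) (by simp)]⟩
  set E := (1 - p) ^ D with hE
  have E0 : 0 < E := pow_pos ε0 D
  have t0 : 0 < r / (2 * D) := by positivity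
  have t1 : r / (2 * D) ≤ r := div_le_self r0.le (by linarith)
  have g : E * exp x = exp (-(r / (2 * D))) := by
    rw [hx, sub_eq_add_neg _ (r / (2 * D)), hE, exp_Lam ε0]
  have g1 : E * exp x ≤ 1 := g.trans_le (exp_le_one_iff.2 (by linarith))
  have g2 : 1 / 2 ≤ E * exp x := by rw [g]; linarith [add_one_le_exp (-(r / (2 * D)))]
  have W : Win D p x x := ⟨p1, le_rfl, by linarith, g2, by linarith⟩
  obtain ⟨μ, m1, -, p0, m3, -⟩ := hW p x (k (by simp)) p1 g2 (by linarith)
  have x0 : 0 ≤ x := m1.trans m3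
  have hp0 : 0 ≤ p := by linarith
  have ex : exp (-x) ≤ 2 * E := by
    rw [exp_neg, inv_le_iff_one_le_mul₀ (exp_pos x)]; linarith
  have fin := hM p x (k (by simp)) p1.le x0 0 h
  set M := (MB D (gk 0 x) p h).toReal with hMM
  have M0 : 0 ≤ M := ENNReal.toReal_nonneg
  have eM : MB D (gk 0 x) p h = ENNReal.ofReal M := (ENNReal.ofReal_toReal fin).symm
  have E2 : (1 - p) ^ (2 * D) = E ^ 2 := by rw [hE, ← pow_mul, mul_comm]
  have u := (hU D hD p x hp0 p1.le h).trans (add_le_add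
    (hN p x (k (by simp)) p1.le x0 (by linarith) h 0) le_rfl)
  rw [eM, E2, ← hr, ← ENNReal.ofReal_mul r0.le, ← ENNReal.ofReal_add (by positivity)
    (by positivity), ← ENNReal.ofReal_mul (by positivity), ← ENNReal.ofReal_mul (by positivity),
    ← ENNReal.ofReal_add (by positivity) (by positivity), ← ENNReal.ofReal_mul (by positivity),
    ← ENNReal.ofReal_add (by positivity) (by positivity),
    ENNReal.ofReal_le_ofReal_iff (by positivity), zero_add, pow_one, ← rr] at u
  have El : E ≤ r ^ 2 := by rw [rr]; exact pow_le_of_le_one ε0.le (by linarith) (by omega)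
  have y1 : E ^ 2 * (exp (2 * x) + 2) ≤ 1 - r / D + 3 * (w / D) * r := by
    have a : E ^ 2 * exp (2 * x) = exp (-(r / D)) := by
      rw [two_mul x, exp_add, show E ^ 2 * (exp x * exp x) = (E * exp x) * (E * exp x) by ring, g,
        ← exp_add]
      congr 1
      field_simp
      ring
    have b0 : 0 < r / D := by positivity
    have b1 : r / D ≤ r := div_le_self r0.le D1
    have b := (abs_le.1 (abs_exp_sub_one_sub_id_le (x := -(r / D))
      (by rw [abs_neg, abs_of_pos b0]; linarith))).2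
    have r2 : r ^ 2 ≤ w / D * r := by rw [sq]; gcongr
    have c1 : (r / D) ^ 2 ≤ w / D * r := le_trans (by gcongr) r2
    have c2 : E ^ 2 ≤ w / D * r :=
      (pow_le_of_le_one E0.le (by linarith) two_ne_zero).trans (El.trans r2)
    rw [neg_sq] at b
    rw [mul_add, a]
    linarith
  have key := up_real (y := E ^ 2 * (exp (2 * x) + 2)) D1 w0 w1 r0 (by linarith) E0 M0 y1 (by
    refine u.trans (add_le_add ?_ ?_)
    · gcongr
    · have : 2 * r ^ 2 * E * (E * exp x) ≤ 2 * r ^ 2 * E * 1 := by gcongr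
      linarith)
  refine ((hF p x x (k (by simp)) W x ⟨le_rfl, le_rfl⟩ h).1).trans ?_
  rw [eM, ← ENNReal.ofReal_mul (by positivity),
    ← ENNReal.ofReal_add (by positivity) (by positivity)]
  refine ENNReal.ofReal_le_ofReal (le_trans (add_le_add le_rfl ?_) (key.trans ?_))
  · rw [rr]; gcongr
  · gcongr
    linarith

theorem fl (hL : MRLStmt) (hF : FVStmt) : FLStmt := by
  intro D hD ζ hζ
  have hD1 : 1 ≤ D := by omega
  have D1 : (1 : ℝ) ≤ D := by exact_mod_cast hD1
  set w := min (1 / 8) (ζ / 4) with hw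
  have w0 : 0 < w := by positivity
  have w1 : w ≤ 1 / 8 := min_le_left _ _
  have w2 : w ≤ ζ / 4 := min_le_right _ _
  have z0 : 0 < w / D := by positivity
  have z1 : w / D ≤ w := div_le_self w0.le D1
  obtain ⟨e2, he2, hF⟩ := hF D hD _ z0
  refine ⟨min e2 w, by positivity, fun p s F hp p1 hs F0 hA => ?_⟩
  have k : ∀ {e : ℝ}, min e2 w ≤ e → 1 - e ≤ p := fun h => by linarith
  have ε0 : 0 < 1 - p := by linarith
  have pw := k (e := w) (by simp)
  have hp0 : 0 < p := by linarith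
  set x := D * log (1 / (1 - p)) - s with hx
  set E := (1 - p) ^ D with hE
  have E0 : 0 < E := pow_pos ε0 D
  obtain ⟨s1, s2⟩ := abs_le.1 hs
  have g : E * exp x = exp (-s) := by rw [hx, sub_eq_add_neg _ s, hE, exp_Lam ε0]
  have g2 : 1 / 2 ≤ E * exp x := by rw [g]; linarith [add_one_le_exp (-s)]
  have g1 : E * exp x ≤ 2 := by
    rw [g, exp_neg, inv_le_iff_one_le_mul₀ (exp_pos s)]
    linarith [add_one_le_exp s]
  have W : Win D p x x := ⟨p1, le_rfl, by linarith, g2, g1⟩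
  have ex : exp (-x) ≤ 2 * E := by
    rw [exp_neg, inv_le_iff_one_le_mul₀ (exp_pos x)]; linarith
  have c0 : 0 < 1 / (2 * D) - w / D := by
    rw [show 1 / (2 * (D : ℝ)) - w / D = (1 / 2 - w) / D by field_simp]
    have : 0 < 1 / 2 - w := by linarith
    positivity
  set B := F + ζ * ((1 - p) * E) with hB
  have B0 : 0 < B := by positivity
  have b1 : ENNReal.ofReal (1 / (2 * D) - w / D) * ⨆ h, MB D (gk 0 x) p h ≤ ENNReal.ofReal B := by
    rw [ENNReal.mul_iSup]
    refine iSup_le fun h => ((hF p x x (k (by simp)) W x ⟨le_rfl, le_rfl⟩ h).2).trans ?_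
    rw [hB, ENNReal.ofReal_add F0 (by positivity)]
    refine add_le_add (hA h) (ENNReal.ofReal_le_ofReal ?_)
    calc w / D * ((1 - p) * exp (-x)) ≤ w * ((1 - p) * (2 * E)) := by gcongr
      _ = 2 * w * ((1 - p) * E) := by ring
      _ ≤ _ := by gcongr; linarith
  have fin : ⨆ h, MB D (gk 0 x) p h ≠ ∞ := fun h => by
    rw [h, ENNReal.mul_top (by simpa using c0)] at b1
    simp at b1
  set M := (⨆ h, MB D (gk 0 x) p h).toReal with hM
  have M0 : 0 ≤ M := ENNReal.toReal_nonneg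
  have eM : ⨆ h, MB D (gk 0 x) p h = ENNReal.ofReal M := (ENNReal.ofReal_toReal fin).symm
  have b2 : ENNReal.ofReal (p * (1 - p) ^ (2 * D)) * (ENNReal.ofReal (2 * (1 - p) * exp x) +
      ENNReal.ofReal (exp (2 * x)) * ⨆ h, MB D (gk 0 x) p h) ≤ ⨆ h, MB D (gk 0 x) p h := by
    conv_lhs => rw [ENNReal.mul_iSup, ENNReal.add_iSup, ENNReal.mul_iSup]
    exact iSup_le fun h => (hL D hD1 p x hp0.le p1.le h).trans
      (le_iSup (fun h => MB D (gk 0 x) p h) (h + 1))
  have E2 : (1 - p) ^ (2 * D) = E ^ 2 := by rw [hE, ← pow_mul, mul_comm]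
  rw [eM, ← ENNReal.ofReal_mul c0.le, ENNReal.ofReal_le_ofReal_iff B0.le] at b1
  rw [eM, E2, ← ENNReal.ofReal_mul (by positivity),
    ← ENNReal.ofReal_add (by positivity) (by positivity), ← ENNReal.ofReal_mul (by positivity),
    ENNReal.ofReal_le_ofReal_iff M0] at b2
  have a : E ^ 2 * exp (2 * x) = exp (-(2 * s)) := by
    rw [two_mul x, exp_add, show E ^ 2 * (exp x * exp x) = (E * exp x) * (E * exp x) by ring, g,
      ← exp_add]
    congr 1
    ring
  have b3 : 2 * p * exp (-s) * ((1 - p) * E) ≤ (1 - p * exp (-(2 * s))) * M := by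
    rw [← a, ← g]
    nlinarith
  have src : 0 < exp (-s) * ((1 - p) * E) := by positivity
  have y0 : 0 < 1 - p * exp (-(2 * s)) := by
    by_contra hn
    nlinarith [mul_nonpos_of_nonpos_of_nonneg (not_lt.1 hn) M0]
  have b4 : (1 / 2 - w) * M ≤ D * B := by
    rw [show 1 / (2 * (D : ℝ)) - w / D = (1 / 2 - w) / D by field_simp, div_mul_eq_mul_div,
      div_le_iff₀ (by positivity)] at b1
    linarith
  have b5 := mul_le_mul_of_nonneg_left b4 y0.le
  have b6 := mul_le_mul_of_nonneg_left b3 (show 0 ≤ 1 / 2 - w by linarith)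
  have b7 : 1 - ζ ≤ (1 / 2 - w) * (2 * p) := by nlinarith
  nlinarith [mul_le_mul_of_nonneg_right b7 src.le]

end Pool.Agent.MP_8c549f_pr.PK
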