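import Pool.Agent.MP_8c549f_pr.PK.Spec

/-!
PROJECT PK, module FV: the time spent in the bushes against their mass.
-/

set_option autoImplicit false

namespace Pool.Agent.MP_8c549f_pr.PK

open MeasureTheory Filter Topology Real
open scoped ENNReal NNReal

namespace FvM

open BushM

variable {D : ℕ}

theorem pow_le (Q : ℕ) (C : ℝ) (S : Finset (V D)) :
    ENNReal.ofReal (C ^ (nu Q S + 1)) ≤ ENNReal.ofReal C + ENNReal.ofReal (bw Q C S) := by
  unfold bw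
  split_ifs with a
  · rw [a]; simp
  · exact le_add_self

theorem upper {p x a C : ℝ} {h Q₁ Q₂ : ℕ}
    (H₁ : ∀ S : Finset (V D), Shape (e0 D) S → PhiS p x S ≤ ENNReal.ofReal (C ^ (nu Q₁ S + 1)))
    (H₂ : ∀ S : Finset (V D), Shape (e0 D) S → NuLe Q₂ (exc S) 0 →
      PhiS p x S ≤ ENNReal.ofReal a) :
    ABu D p x h ≤ ENNReal.ofReal a * MB D (gk 0 x) p h +
      ENNReal.ofReal C * MBad D (gk 0 x) p h Q₂ 0 + Sm (D := D) p h (bw Q₁ C) 0 x := by
  classical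
  unfold ABu MB MBad Sm Pp
  rw [← ENNReal.tsum_mul_left, ← ENNReal.tsum_mul_left, ← ENNReal.tsum_add, ← ENNReal.tsum_add]
  refine ENNReal.tsum_le_tsum fun S => ?_
  by_cases b : ht (e0 D) S ≤ h
  swap
  · simp [b]
  by_cases hS : Shape (e0 D) S
  swap
  · simp [(pisS D p S (gk 0 x) (gk 0 x)).2.2.2 hS]
  rw [if_pos b, if_pos b, mul_comm]
  by_cases n : NuLe Q₂ (exc S) 0
  · exact le_add_right (le_add_right (mul_le_mul_left (H₂ S hS n) _))
  · rw [if_pos ⟨b, n⟩, add_assoc, ← add_mul]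
    exact le_add_left (mul_le_mul_left ((H₁ S hS).trans (pow_le Q₁ C S)) _)

theorem lower {p x a : ℝ} {h Q₂ : ℕ} (ha : a ≤ 1)
    (H₂ : ∀ S : Finset (V D), Shape (e0 D) S → NuLe Q₂ (exc S) 0 →
      ENNReal.ofReal a ≤ PhiS p x S) :
    ENNReal.ofReal a * MB D (gk 0 x) p h ≤ ABu D p x h + MBad D (gk 0 x) p h Q₂ 0 := by
  classical
  unfold ABu MB MBad
  rw [← ENNReal.tsum_mul_left, ← ENNReal.tsum_add]
  refine ENNReal.tsum_le_tsum fun S => ?_
  by_cases b : ht (e0 D) S ≤ h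
  swap
  · simp [b]
  by_cases hS : Shape (e0 D) S
  swap
  · simp [(pisS D p S (gk 0 x) (gk 0 x)).2.2.2 hS]
  rw [if_pos b, if_pos b]
  by_cases n : NuLe Q₂ (exc S) 0
  · rw [mul_comm]
    exact le_add_right (mul_le_mul_right (H₂ S hS n) _)
  · rw [if_pos ⟨b, n⟩]
    refine le_add_left ?_
    calc ENNReal.ofReal a * piS (gk 0 x) p S ≤ 1 * piS (gk 0 x) p S :=
          mul_le_mul_left (ENNReal.ofReal_le_one.2 ha) _
      _ = piS (gk 0 x) p S := one_mul _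

theorem up_fin {A M B₁ B₂ : ℝ≥0∞} {a ζ C θ e : ℝ} (ha : 0 ≤ a) (hζ : 0 < ζ) (hC : 1 ≤ C)
    (hθ : 0 ≤ θ) (h3 : 3 * C ^ 2 * θ ≤ ζ / 2) (he : 0 ≤ e)
    (hA : A ≤ ENNReal.ofReal (a + ζ / 2) * M + ENNReal.ofReal C * B₁ + B₂)
    (h₁ : B₁ ≤ ENNReal.ofReal θ * (M + ENNReal.ofReal e))
    (h₂ : B₂ ≤ ENNReal.ofReal (2 * C ^ 2 * θ) * (M + ENNReal.ofReal e)) :
    A ≤ ENNReal.ofReal (a + ζ) * M + ENNReal.ofReal (ζ * e) := by
  have C0 : 0 ≤ C := by linarith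
  have k : ENNReal.ofReal C * ENNReal.ofReal θ + ENNReal.ofReal (2 * C ^ 2 * θ) ≤
      ENNReal.ofReal (ζ / 2) := by
    rw [← ENNReal.ofReal_mul C0, ← ENNReal.ofReal_add (by positivity) (by positivity)]
    refine ENNReal.ofReal_le_ofReal ?_
    nlinarith [mul_nonneg (mul_nonneg C0 (sub_nonneg.2 hC)) hθ]
  calc A ≤ ENNReal.ofReal (a + ζ / 2) * M + ENNReal.ofReal C *
          (ENNReal.ofReal θ * (M + ENNReal.ofReal e)) +
          ENNReal.ofReal (2 * C ^ 2 * θ) * (M + ENNReal.ofReal e) :=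
        hA.trans (add_le_add (add_le_add le_rfl (mul_le_mul_right h₁ _)) h₂)
    _ = ENNReal.ofReal (a + ζ / 2) * M + (ENNReal.ofReal C * ENNReal.ofReal θ +
          ENNReal.ofReal (2 * C ^ 2 * θ)) * (M + ENNReal.ofReal e) := by ring
    _ ≤ ENNReal.ofReal (a + ζ / 2) * M + ENNReal.ofReal (ζ / 2) * (M + ENNReal.ofReal e) :=
        add_le_add le_rfl (mul_le_mul_left k _)
    _ = (ENNReal.ofReal (a + ζ / 2) + ENNReal.ofReal (ζ / 2)) * M +
          ENNReal.ofReal (ζ / 2) * ENNReal.ofReal e := by ring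
    _ ≤ ENNReal.ofReal (a + ζ) * M + ENNReal.ofReal (ζ * e) := by
        rw [← ENNReal.ofReal_add (by positivity) (by positivity),
          ← ENNReal.ofReal_mul (by positivity), show a + ζ / 2 + ζ / 2 = a + ζ by ring]
        exact add_le_add le_rfl (ENNReal.ofReal_le_ofReal (by nlinarith))

theorem lo_fin {A M B : ℝ≥0∞} {a ζ θ e : ℝ} (hζ : 0 < ζ) (h3 : θ ≤ ζ / 2) (he : 0 ≤ e)
    (hM : M ≠ ∞) (hA : ENNReal.ofReal (a - ζ / 2) * M ≤ A + B)
    (h₁ : B ≤ ENNReal.ofReal θ * (M + ENNReal.ofReal e)) :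
    ENNReal.ofReal (a - ζ) * M ≤ A + ENNReal.ofReal (ζ * e) := by
  rcases le_total (a - ζ) 0 with n | n
  · rw [ENNReal.ofReal_eq_zero.2 n, zero_mul]
    exact zero_le
  have f : ENNReal.ofReal (ζ / 2) * M ≠ ∞ := ENNReal.mul_ne_top ENNReal.ofReal_ne_top hM
  refine (ENNReal.add_le_add_iff_right f).1 ?_
  calc ENNReal.ofReal (a - ζ) * M + ENNReal.ofReal (ζ / 2) * M
      = ENNReal.ofReal (a - ζ / 2) * M := by
        rw [← add_mul, ← ENNReal.ofReal_add n (by positivity),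
          show a - ζ + ζ / 2 = a - ζ / 2 by ring]
    _ ≤ A + ENNReal.ofReal (ζ / 2) * (M + ENNReal.ofReal e) :=
        hA.trans (add_le_add le_rfl (h₁.trans (mul_le_mul_left (ENNReal.ofReal_le_ofReal h3) _)))
    _ = A + ENNReal.ofReal (ζ / 2) * ENNReal.ofReal e + ENNReal.ofReal (ζ / 2) * M := by ring
    _ ≤ A + ENNReal.ofReal (ζ * e) + ENNReal.ofReal (ζ / 2) * M := by
        rw [← ENNReal.ofReal_mul (by positivity)]
        exact add_le_add (add_le_add le_rfl (ENNReal.ofReal_le_ofReal (by nlinarith))) le_rfl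

end FvM

open BushM FvM in
theorem fv (h1 : KOVStmt) (h2 : NASStmt) : FVStmt := by
  intro D hD ζ z0
  obtain ⟨Q₁, c, C, Q1, -, C1, hK⟩ := koutS D hD
  obtain ⟨e₁, e1, hK⟩ := hK 1 one_pos
  obtain ⟨Q₂, Q2, hV⟩ := h1 D hD
  obtain ⟨e₂, e2, hV⟩ := hV (ζ / 2) (by positivity)
  set θ : ℝ := min (1 / (2 * C)) (ζ / (6 * C ^ 2)) with hθ
  have C0 : 0 < C := by linarith
  have t0 : 0 < θ := by positivity
  have t1 : C * θ ≤ 1 / 2 := by
    have := mul_le_mul_of_nonneg_left (min_le_left (1 / (2 * C)) (ζ / (6 * C ^ 2))) C0.le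
    rwa [show C * (1 / (2 * C)) = 1 / 2 by field_simp] at this
  have t2 : 3 * C ^ 2 * θ ≤ ζ / 2 := by
    have := mul_le_mul_of_nonneg_left (min_le_right (1 / (2 * C)) (ζ / (6 * C ^ 2)))
      (show 0 ≤ 3 * C ^ 2 by positivity)
    rwa [show 3 * C ^ 2 * (ζ / (6 * C ^ 2)) = ζ / 2 by field_simp; norm_num] at this
  have t3 : θ ≤ ζ / 2 := by nlinarith [mul_nonneg (sub_nonneg.2 (one_le_pow₀ (n := 2) C1)) t0.le]
  obtain ⟨e₃, e3, hN₁⟩ := h2 D hD Q₁ Q1 θ t0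
  obtain ⟨e₄, e4, hN₂⟩ := h2 D hD Q₂ Q2 θ t0
  obtain ⟨e₅, e5, hM⟩ := mfinS D (by omega)
  obtain ⟨e₆, e6, hW⟩ := win_mu hD 0
  refine ⟨min (min (min e₁ e₂) (min e₃ e₄)) (min (min e₅ e₆) 1), by positivity,
    fun p α β hp W x hx h => ?_⟩
  have q := min_le_left (min (min e₁ e₂) (min e₃ e₄)) (min (min e₅ e₆) 1)
  have q' := min_le_right (min (min e₁ e₂) (min e₃ e₄)) (min (min e₅ e₆) 1)
  have p1 : 1 - e₁ ≤ p := by linarith [q.trans ((min_le_left _ _).trans (min_le_left e₁ e₂))]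
  have p2 : 1 - e₂ ≤ p := by linarith [q.trans ((min_le_left _ _).trans (min_le_right e₁ e₂))]
  have p3 : 1 - e₃ ≤ p := by linarith [q.trans ((min_le_right _ _).trans (min_le_left e₃ e₄))]
  have p4 : 1 - e₄ ≤ p := by linarith [q.trans ((min_le_right _ _).trans (min_le_right e₃ e₄))]
  have p5 : 1 - e₅ ≤ p := by linarith [q'.trans ((min_le_left _ _).trans (min_le_left e₅ e₆))]
  have p6 : 1 - e₆ ≤ p := by linarith [q'.trans ((min_le_left _ _).trans (min_le_right e₅ e₆))]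
  have p7 : 0 ≤ p := by linarith [q'.trans (min_le_right _ _)]
  have x0 : 0 ≤ x := by
    obtain ⟨μ, m0, -, -, m1, -⟩ := hW p x p6 W.1 (W.mem hx).1 (W.mem hx).2
    linarith
  have e0' : 0 ≤ (1 - p) * exp (-x) := mul_nonneg (sub_nonneg.2 W.1.le) (exp_pos _).le
  have sq : ENNReal.ofReal √(1 - p) * MB D (gk 0 x) p h + ENNReal.ofReal ((1 - p) * exp (-x)) ≤
      MB D (gk 0 x) p h + ENNReal.ofReal ((1 - p) * exp (-x)) := by
    refine add_le_add ?_ le_rfl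
    calc ENNReal.ofReal √(1 - p) * MB D (gk 0 x) p h ≤ 1 * MB D (gk 0 x) p h :=
          mul_le_mul_left (ENNReal.ofReal_le_one.2 (Real.sqrt_le_one.2 (by linarith))) _
      _ = MB D (gk 0 x) p h := one_mul _
  have b₁ : MBad D (gk 0 x) p h Q₂ 0 ≤
      ENNReal.ofReal θ * (MB D (gk 0 x) p h + ENNReal.ofReal ((1 - p) * exp (-x))) := by
    have := hN₂ p x p4 W.1.le x0 (W.mem hx).2 h 0
    rw [zero_add, pow_one] at this
    exact this.trans (mul_le_mul_right sq _)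
  have b₂ := bad_le (k := 0) C1 t0.le t1 fun ν =>
    (hN₁ p x p3 W.1.le x0 (W.mem hx).2 h ν).trans (mul_le_mul_right sq _)
  have D2 : (2 : ℝ) ≤ D := by exact_mod_cast hD
  have a0 : (0 : ℝ) ≤ 1 / (2 * D) := by positivity
  have a1 : (1 : ℝ) / (2 * D) ≤ 1 := by
    rw [div_le_one (by linarith)]
    linarith
  refine ⟨up_fin a0 z0 C1 t0.le t2 e0' (upper (fun S hS => ?_) fun S hS n => ?_) b₁ b₂,
    lo_fin z0 t3 e0' (hM p x p5 W.1.le x0 0 h) (lower (by linarith) fun S hS n => ?_) b₁⟩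
  · exact (hK p α β p1 W S hS _ (nu_spec (((profS D hD).2 S hS).1 Q₁ Q1))).1 x hx
  · exact (hV p α β p2 W S hS n x hx).2
  · exact (hV p α β p2 W S hS n x hx).1

end Pool.Agent.MP_8c549f_pr.PK
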