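import Pool.Agent.MP_8c549f_pr.PK.Spec

/-! PROJECT PK, row KCV: the value of the main term for a bush that starts as a tube. -/

set_option autoImplicit false

namespace Pool.Agent.MP_8c549f_pr.PK

open MeasureTheory Filter Topology Real KaM
open scoped ENNReal NNReal

namespace KcvM

variable {D : ℕ}

/-- a supersolution bounds the mean number of visits -/
theorem sup {lam : ℝ} {ω : Cfg D} {m : V D → ℝ} (h0 : ∀ y, 0 ≤ m y)
    (hm : ∀ y, y 0 < 2 → (if y = 0 then 1 else 0) + ∑ s, pr lam ω y s * m (y + vec s) ≤ m y)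
    {A : Set (List (Step D))} (hA : Antich A) (y : V D)
    (hl : ∀ l ∈ A, ∀ i < l.length, y 0 + H l i < 2) :
    SS A (fun l => nst (fun x _ => x = 0) y l * W lam ω y l) ≤ ENNReal.ofReal (m y) := by
  rw [SS_eq_iSup_length]
  refine iSup_le fun n => ?_
  induction n generalizing A y with
  | zero =>
    refine (SS_mono (B := {[]}) (fun l hl => ?_) fun _ _ => le_rfl).trans (by simp [SS_singleton])
    simpa using hl.2
  | succ n ih =>
    by_cases hy : y 0 < 2
    swap
    · refine (SS_mono (B := {[]}) (fun l h => ?_) fun _ _ => le_rfl).trans (by simp [SS_singleton])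
      rcases l with _ | ⟨s, l⟩
      · rfl
      · have := hl _ h.1 0 (by simp)
        rw [H_zero] at this
        omega
    obtain ⟨I, hI⟩ : ∃ I : ℝ, I = if y = 0 then 1 else 0 := ⟨_, rfl⟩
    have I0 : 0 ≤ I := by rw [hI]; split_ifs <;> norm_num
    have key : ∀ s : Step D, SS {l | s :: l ∈ {l | l ∈ A ∧ l.length ≤ n + 1}}
        (fun l => nst (fun x _ => x = 0) y (s :: l) * W lam ω y (s :: l)) ≤
        ENNReal.ofReal (pr lam ω y s * (I + m (y + vec s))) := by
      intro s
      have e : ∀ l, (nst (fun x _ => x = 0) y (s :: l) : ℝ≥0∞) * W lam ω y (s :: l) =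
          ENNReal.ofReal (pr lam ω y s) * (ENNReal.ofReal I * W lam ω (y + vec s) l +
            nst (fun x _ => x = 0) (y + vec s) l * W lam ω (y + vec s) l) := fun l => by
        rw [nst_cons, W_cons, hI]
        by_cases h : y = 0
        · rw [if_pos h, if_pos h]
          push_cast
          rw [ENNReal.ofReal_one]
          ring
        · rw [if_neg h, if_neg h]
          push_cast
          rw [ENNReal.ofReal_zero]
          ring
      simp only [e]
      rw [SS_mul_left, SS_add, SS_mul_left, ENNReal.ofReal_mul (pr_nonneg _ _ _ _),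
        ENNReal.ofReal_add I0 (h0 _)]
      refine mul_le_mul' le_rfl (add_le_add (mul_le_of_le_one_right' (kraft lam ω
        ((hA.tail [s]).mono fun l h => h.1) _)) (le_trans (SS_mono ?_ fun _ _ => le_rfl)
          (ih (hA.tail [s]) (y + vec s) fun l h i hi => ?_)))
      · exact fun l hl => ⟨hl.1, by simpa using hl.2⟩
      · have := hl _ h (i + 1) (by simpa using hi)
        rw [List.singleton_append, H_cons_succ] at this
        rw [Pi.add_apply]
        omega
    rw [SS_cons, Set.indicator_apply_eq_zero.2 fun _ => by simp, zero_add]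
    refine (Finset.sum_le_sum fun s _ => key s).trans ?_
    rw [← ENNReal.ofReal_sum_of_nonneg fun s _ =>
      mul_nonneg (pr_nonneg _ _ _ _) (add_nonneg I0 (h0 _))]
    refine ENNReal.ofReal_le_ofReal (le_trans ?_ (hm y hy))
    simp only [mul_add, Finset.sum_add_distrib, ← Finset.sum_mul, ← hI]
    exact add_le_add (mul_le_of_le_one_left I0 (sum_pr_le_one _ _ _)) le_rfl

/-- the list `side, forward, forward` -/
theorem piece (k : Fin D) (g : Bool) : Piece 2 1 [(k.succ, g), fwd D, fwd D] := by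
  set l : List (Step D) := [(k.succ, g), fwd D, fwd D] with hdef
  have hv := vec_side_zero k g
  obtain ⟨h1, h2, h3⟩ : H l 1 = 0 ∧ H l 2 = 1 ∧ H l 3 = 2 := by
    refine ⟨?_, ?_, ?_⟩ <;>
      simp only [H, hdef, loc_cons_succ, loc_zero, Pi.add_apply, hv, vec_fwd_zero,
        Pi.zero_apply] <;> norm_num
  have h0 := H_zero l
  have hl : l.length = 3 := rfl
  refine ⟨⟨fun i hi => ?_, ⟨by omega, le_rfl, ?_, fun i hi => ?_⟩, fun t ht hc => ?_⟩, ?_, ?_⟩
  · rw [hl] at hi
    interval_cases i <;> omega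
  · rw [hl, h3, h2]; rfl
  · rw [hl] at hi ⊢
    interval_cases i <;> simp only [Nat.add_one_sub_one] <;> omega
  · obtain ⟨⟨a, -, b, c⟩, -⟩ := hc
    rw [hl] at ht
    interval_cases t
    · simp only [Nat.sub_self] at b
      omega
    · have := c 0 (by norm_num)
      simp only [Nat.add_one_sub_one] at this
      omega
  · rw [← H_length, hl, h3]; rfl
  · have a : rad (0 : V D) = 0 := by simp [rad]
    have b := rad_side k g
    have c := PieceB.rad_fwd (vec ((k.succ, g) : Step D))
    have d := PieceB.rad_fwd (vec ((k.succ, g) : Step D) + vec (fwd D))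
    simp only [ext, hl, Finset.range_add_one, Finset.sup_insert, Finset.range_zero,
      Finset.sup_empty]
    simp only [hdef, loc_cons_succ, loc_zero, add_zero, ← add_assoc, a, b, c, d]
    rfl

/-- the good configurations -/
structure Gd (ω : Cfg D) : Prop where
  cl : ω (edge 0 (fwd D)) = false
  s0 : ∀ (k : Fin D) (g : Bool), ω (edge 0 (k.succ, g)) = true
  s1 : ∀ (k : Fin D) (g : Bool), ω (edge (vec (k.succ, g)) (fwd D)) = true
  s2 : ∀ (k : Fin D) (g : Bool), ω (edge (vec (k.succ, g) + vec (fwd D)) (fwd D)) = true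

theorem zq {ω : Cfg D} (h : Gd ω) (x : ℝ) :
    2 * D ≤ Zq x ω 0 ∧ Zq x ω 0 ≤ 2 * D + exp (-x) := by
  have := exp_pos (-x)
  rw [Zq, sum_step]
  simp only [h.cl, h.s0, wt_side, wt_bck, if_true, Finset.sum_const, Finset.card_univ,
    Fintype.card_fin, nsmul_eq_mul, Bool.false_eq_true, if_false]
  split_ifs <;> constructor <;> linarith

theorem low {ω : Cfg D} (h : Gd ω) (hD : 1 ≤ D) (x : ℝ) :
    ENNReal.ofReal (1 / (2 * D) * (exp x / Zf D x * (2 * D / (2 * D + exp (-x)))) ^ 2) ≤
      ENNReal.ofReal (1 / Zq x ω 0) * C1 x ω (fun x _ => x = 0) 2 1 := by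
  have d1 : (1 : ℝ) ≤ D := by exact_mod_cast hD
  have e1 := exp_pos (-x)
  have f0 : 0 ≤ exp x / Zf D x := div_nonneg (exp_pos x).le (Zf_pos D x).le
  obtain ⟨z1, z2⟩ := zq h x
  have z : 1 / (2 * (D : ℝ) + exp (-x)) ≤ 1 / Zq x ω 0 :=
    one_div_le_one_div_of_le (by linarith) z2
  have f : ∀ y, ω (edge y (fwd D)) = true →
      ENNReal.ofReal (exp x / Zf D x) ≤ ENNReal.ofReal (pr x ω y (fwd D)) := fun y hy =>
    ENNReal.ofReal_le_ofReal (by simpa using free_le_pr x hy)
  have w : ∀ (k : Fin D) (g : Bool),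
      ENNReal.ofReal (1 / (2 * D + exp (-x)) * (exp x / Zf D x * (exp x / Zf D x))) ≤
      SS {l | ((k.succ, g) : Step D) :: l ∈ {l | Piece 2 1 l}} fun l =>
        nst (fun x _ => x = 0) 0 ((k.succ, g) :: l) * W x ω 0 ((k.succ, g) :: l) := by
    intro k g
    refine le_trans ?_ (le_SS _ (u := [fwd D, fwd D]) (piece k g))
    have n : (1 : ℝ≥0∞) ≤ (nst (fun x _ => x = 0) 0 [(k.succ, g), fwd D, fwd D] : ℕ) := by
      rw [nst_cons, if_pos rfl]
      exact_mod_cast Nat.le_add_right 1 _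
    refine le_trans ?_ (le_mul_of_one_le_left' n)
    rw [W_cons, W_cons, W_cons, W_nil, mul_one, zero_add, ENNReal.ofReal_mul (by positivity),
      ENNReal.ofReal_mul f0]
    refine mul_le_mul' (ENNReal.ofReal_le_ofReal ?_) (mul_le_mul' (f _ (h.s1 k g)) (f _ (h.s2 k g)))
    rw [pr_of_open x (h.s0 k g), wt_side]
    exact z
  rw [C1, SS_cons, sum_step]
  refine le_trans ?_ (mul_le_mul' (ENNReal.ofReal_le_ofReal z) (le_add_left (le_add_left
    (Finset.sum_le_sum fun k _ => add_le_add (w k true) (w k false)))))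
  rw [← ENNReal.ofReal_add (by positivity) (by positivity),
    ← ENNReal.ofReal_sum_of_nonneg fun _ _ => by positivity, ← ENNReal.ofReal_mul (by positivity)]
  refine ENNReal.ofReal_le_ofReal (le_of_eq ?_)
  simp only [Finset.sum_const, Finset.card_univ, Fintype.card_fin, nsmul_eq_mul]
  field_simp
  ring

theorem mix {ω : Cfg D} {x d K a : ℝ} {y : V D} {m : V D → ℝ} (hK : ∀ y, m y ≤ K) (K0 : 0 ≤ K)
    (a0 : 0 ≤ a) (hd : 1 - exp x / Zf D x ≤ d) (ho : ω (edge y (fwd D)) = true)
    (ha : m (y + vec (fwd D)) ≤ a) : ∑ s, pr x ω y s * m (y + vec s) ≤ a + d * K := by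
  have h1 := sum_pr_le_one x ω y
  have h2 : exp x / Zf D x ≤ pr x ω y (fwd D) := by simpa using free_le_pr x ho
  have h3 : ∑ s ∈ Finset.univ.erase (fwd D), pr x ω y s * m (y + vec s) ≤
      (∑ s ∈ Finset.univ.erase (fwd D), pr x ω y s) * K := by
    rw [Finset.sum_mul]
    exact Finset.sum_le_sum fun s _ => mul_le_mul_of_nonneg_left (hK _) (pr_nonneg _ _ _ _)
  rw [← Finset.add_sum_erase _ _ (Finset.mem_univ (fwd D))] at h1 ⊢
  have h4 := mul_le_mul_of_nonneg_left ha (pr_nonneg x ω y (fwd D))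
  have h5 := mul_le_of_le_one_left a0 (pr_le_one x ω y (fwd D))
  have h6 : (∑ s ∈ Finset.univ.erase (fwd D), pr x ω y s) * K ≤ d * K :=
    mul_le_mul_of_nonneg_right (by linarith) K0
  linarith

theorem up {ω : Cfg D} (h : Gd ω) (hD : 1 ≤ D) {x d K : ℝ} (d0 : 0 ≤ d) (d1 : 2 * d ≤ 1)
    (hd : 1 - exp x / Zf D x ≤ d) (K0 : 0 ≤ K) (hK : 1 + (2 * d + exp (-x)) * K ≤ K) :
    ENNReal.ofReal (1 / Zq x ω 0) * C1 x ω (fun x _ => x = 0) 2 1 ≤
      ENNReal.ofReal (1 / (2 * D) * K) := by
  classical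
  have D1 : (1 : ℝ) ≤ D := by exact_mod_cast hD
  have e1 := exp_pos (-x)
  obtain ⟨z1, z2⟩ := zq h x
  have dK := mul_nonneg d0 K0
  have dK1 := mul_le_mul_of_nonneg_right d1 K0
  obtain ⟨m, hm⟩ : ∃ m : V D → ℝ, ∀ y, m y = if 2 ≤ y 0 then 0 else
      if y 0 = 1 ∧ ω (edge y (fwd D)) = true then d * K else
      if y 0 = 0 ∧ ω (edge y (fwd D)) = true ∧ ω (edge (y + vec (fwd D)) (fwd D)) = true
        then 2 * (d * K) else K := ⟨_, fun _ => rfl⟩
  have m0 : ∀ y, 0 ≤ m y := fun y => by rw [hm]; split_ifs <;> linarith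
  have m1 : ∀ y, m y ≤ K := fun y => by rw [hm]; split_ifs <;> linarith
  have mz : m 0 = K := by simp [hm, h.cl]
  rw [ENNReal.ofReal_mul (by positivity), ← mz]
  refine mul_le_mul' (ENNReal.ofReal_le_ofReal (one_div_le_one_div_of_le (by linarith) z1))
    (sup m0 (fun y hy => ?_) (PieceB.antich_piece 2 1) 0 fun l hl i hi => ?_)
  · by_cases h0 : y = 0
    · subst h0
      have b1 : pr x ω 0 (bck D) ≤ exp (-x) := by
        unfold pr
        split_ifs
        · rw [wt_bck]
          exact div_le_self e1.le (by linarith)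
        · exact e1.le
      have b2 : ∀ (k : Fin D) (g : Bool), pr x ω 0 (k.succ, g) * m (0 + vec (k.succ, g)) =
          pr x ω 0 (k.succ, g) * (2 * (d * K)) := fun k g => by
        simp [hm, vec_side_zero, h.s1, h.s2]
      have b3 := sum_pr_le_one x ω 0
      rw [sum_step] at b3
      have b4 := pr_nonneg x ω 0 (bck D)
      have b5 := mul_le_mul b1 (m1 (0 + vec (bck D))) (m0 _) e1.le
      rw [if_pos rfl, sum_step, mz]
      simp only [b2, ← add_mul, ← Finset.sum_mul]
      rw [pr_of_closed x h.cl] at b3 ⊢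
      have b6 := mul_le_of_le_one_left (show 0 ≤ 2 * (d * K) by linarith)
        (show ∑ k : Fin D, (pr x ω 0 (k.succ, true) + pr x ω 0 (k.succ, false)) ≤ 1 by linarith)
      linarith
    · rw [if_neg h0, zero_add, hm y, if_neg (by omega)]
      split_ifs with c1 c2
      · have := mix m1 K0 le_rfl hd c1.2 (le_of_eq (by simp [hm, c1.1]))
        linarith
      · have := mix m1 K0 dK hd c2.2.1 (le_of_eq (by simp [hm, c2.1, c2.2.2]))
        linarith
      · refine (Finset.sum_le_sum fun s _ =>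
          mul_le_mul_of_nonneg_left (m1 _) (pr_nonneg _ _ _ _)).trans ?_
        rw [← Finset.sum_mul]
        exact mul_le_of_le_one_left K0 (sum_pr_le_one _ _ _)
  · obtain ⟨⟨-, ⟨a, -, b, c⟩, -⟩, e, -⟩ := hl
    rw [H_length, e] at b
    rw [Pi.zero_apply]
    rcases Nat.lt_or_ge i (l.length - 1) with j | j
    · have := c i j
      omega
    · rw [show i = l.length - 1 by omega]
      omega

theorem mul_ge {a b : ℝ} (ha : a ≤ 1) (hb : b ≤ 1) : a + b - 1 ≤ a * b := by
  nlinarith [mul_nonneg (sub_nonneg.2 ha) (sub_nonneg.2 hb)]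

end KcvM

open KcvM in
theorem kcv : KCVStmt := by
  classical
  intro D hD ζ hζ
  obtain ⟨C, hC, h6⟩ := p6S D 2 1 0 0
  obtain ⟨e₀, he, hμ⟩ := win_mu hD 0
  have D1 : (2 : ℝ) ≤ D := by exact_mod_cast hD
  obtain ⟨A, hA⟩ : ∃ A : ℝ, A = 6 * D * C + 10 * D + 10 := ⟨_, rfl⟩
  have A0 : 0 < A := by rw [hA]; positivity
  refine ⟨min e₀ (min ζ (1 / 2) / A), by positivity, fun p x h0 h1 h2 h3 S hS x0 x1 => ?_⟩
  obtain ⟨μ, m1, m2, m3, m4, -⟩ := hμ p x (by linarith [min_le_left e₀ (min ζ (1 / 2) / A)]) h1 h2 h3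
  have u0 : 0 ≤ 1 - p := by linarith
  have uA : (1 - p) * A ≤ min ζ (1 / 2) :=
    (le_div_iff₀ A0).1 (by linarith [min_le_right e₀ (min ζ (1 / 2) / A)])
  have uζ := uA.trans (min_le_left _ _)
  have uh := uA.trans (min_le_right _ _)
  have e1 := exp_pos (-x)
  have eu : exp (-x) ≤ 1 - p := by rw [m2]; exact exp_le_exp.2 (by linarith)
  obtain ⟨-, f1, f2⟩ := phi_bounds (D := D) zero_le_one le_rfl m1
    (by rw [sub_self]; exact (exp_pos _).le) m4
  rw [one_mul] at f1 f2
  rw [← m2] at f2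
  have uD := mul_nonneg u0 (show (0 : ℝ) ≤ D by linarith)
  have uC := mul_nonneg uD hC
  have := perc_prob D (p := p) (by linarith) h1.le
  set O : Finset (Edge D) := Finset.univ.biUnion fun q : Fin D × Bool =>
    {edge 0 (q.1.succ, q.2), edge (vec (q.1.succ, q.2)) (fwd D),
      edge (vec (q.1.succ, q.2) + vec (fwd D)) (fwd D)} with hO
  have hc : O.card ≤ 6 * D := by
    refine (Finset.card_biUnion_le_card_mul _ _ 3 fun _ _ => Finset.card_le_three).trans ?_
    simp only [Finset.card_univ, Fintype.card_prod, Fintype.card_fin, Fintype.card_bool]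
    omega
  have hP := cyl D p (by linarith) h1.le O ∅ (by simp)
  rw [Finset.card_empty, pow_zero, mul_one] at hP
  set G := {ω : Cfg D | (∀ e ∈ O, ω e = true) ∧ ∀ e ∈ (∅ : Finset (Edge D)), ω e = false} with hG
  have hm : MeasurableSet G := by
    refine Dep.measurableSet (S := (O : Set (Edge D))) (fun ω ω' h => ?_) O.finite_toSet
    simp only [Finset.notMem_empty, false_imp_iff, implies_true, and_true, eq_iff_iff]
    exact forall₂_congr fun e he => by rw [h e he]
  have pO : 1 - 6 * D * (1 - p) ≤ p ^ O.card := by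
    have b := one_add_mul_le_pow (a := p - 1) (by linarith) (6 * D)
    rw [add_sub_cancel] at b
    push_cast at b
    linarith [pow_le_pow_of_le_one (by linarith) h1.le hc]
  have op : ∀ {ω : Cfg D} {x : V D} {s : Step D}, x ∉ S → x + vec s ∉ S → ω (edge x s) = true →
      plus (clo S ω) (edge x s) = true := fun b c d =>
    plus_of_open (clo_eq_true.2 ⟨fun h => (edge_mem_near.1 h).elim b c, d⟩)
  have cl := fwd_closed hS.1
  have gd : ∀ ω ∈ G, Gd (plus (clo S ω)) := fun ω hω => by
    have av := fun (k : Fin D) (g : Bool) =>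
      avoid hS x0 x1 (a := vec (k.succ, g)) (vec_side_zero k g) (vec_ne_zero _)
    simp only [← vec_fwd_e0] at av
    have me : ∀ (k : Fin D) (g : Bool) {e : Edge D}, e ∈ ({edge 0 (k.succ, g),
        edge (vec (k.succ, g)) (fwd D), edge (vec (k.succ, g) + vec (fwd D)) (fwd D)} :
          Finset (Edge D)) → ω e = true := fun k g e he =>
      hω.1 e (Finset.mem_biUnion.2 ⟨(k, g), Finset.mem_univ _, he⟩)
    exact ⟨cl ω, fun k g => op (av k g).1 (by rw [zero_add]; exact (av k g).2.1) (me k g (by simp)),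
      fun k g => op (av k g).2.1 (av k g).2.2.1 (me k g (by simp)),
      fun k g => op (av k g).2.2.1 (av k g).2.2.2 (me k g (by simp))⟩
  rw [T1, if_pos (by simp)]
  simp only [not_und, not_false_eq_true, Set.ofPred_true, Measure.restrict_univ]
  have i1 : 1 / (2 * (D : ℝ)) ≤ 1 := (div_le_one (by linarith)).2 (by linarith)
  constructor
  · refine le_trans ?_ ((setLIntegral_mono' hm fun ω hω => KcvM.low (gd ω hω) (by omega) x).trans
      (setLIntegral_le_lintegral _ _))
    rw [setLIntegral_const, hP, ← ENNReal.ofReal_mul (by positivity)]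
    refine ENNReal.ofReal_le_ofReal ?_
    have r1 : 2 * (D : ℝ) / (2 * D + exp (-x)) ≤ 1 := (div_le_one (by linarith)).2 (by linarith)
    have r2 : 1 - exp (-x) ≤ 2 * (D : ℝ) / (2 * D + exp (-x)) :=
      (le_div_iff₀ (by linarith)).2 (by nlinarith)
    have r3 := mul_ge f1 r1
    have r4 := mul_le_one₀ f1 (by positivity) r1
    obtain ⟨ψ, hψ⟩ : ∃ ψ, ψ = exp x / Zf D x * (2 * (D : ℝ) / (2 * D + exp (-x))) := ⟨_, rfl⟩
    have r0 : 0 ≤ ψ := by
      have := Zf_pos D x
      rw [hψ]
      positivity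
    rw [← hψ] at r3 r4 ⊢
    have r5 := mul_ge r4 r4
    have r6 := mul_ge (mul_le_one₀ r4 r0 r4) (pow_le_one₀ (n := O.card) (by linarith) h1.le)
    have r7 : 1 - ζ ≤ ψ * ψ * p ^ O.card := by rw [hA] at uζ; nlinarith
    have r8 := mul_le_mul_of_nonneg_left r7 (show 0 ≤ 1 / (2 * (D : ℝ)) by positivity)
    have r9 := mul_le_of_le_one_left hζ.le i1
    nlinarith
  · have hz : ∀ ω : Cfg D, ENNReal.ofReal (1 / Zq x (plus (clo S ω)) 0) *
        C1 x (plus (clo S ω)) (fun x _ => x = 0) 2 1 ≤ ENNReal.ofReal C := fun ω => by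
      by_cases c : C1 x (plus (clo S ω)) (fun x _ => x = 0) 2 1 = 0
      · simp [c]
      · have z := ((wgeoS D _ 2 1 0).2 0 le_rfl (cl ω) (not_und _)).2 x c x
        exact le_trans (mul_le_of_le_one_left' (ENNReal.ofReal_le_one.2
          ((div_le_one (by linarith)).2 z)))
          (((h6 _ (plus_bck _) 0 0 le_rfl).2.2 _ (goodC (cl ω) 2 1)).1 x (m1.trans m4))
    obtain ⟨t, ht⟩ : ∃ t, t = (4 * D + 5) * (1 - p) := ⟨_, rfl⟩
    have t0 : 0 ≤ t := by rw [ht]; positivity
    have t1 : 2 * t ≤ 1 := by rw [hA] at uh; rw [ht]; nlinarith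
    have hU := fun ω (hω : ω ∈ G) => KcvM.up (gd ω hω) (by omega) (d := (2 * D + 2) * (1 - p))
      (K := 1 + 2 * t) (by positivity) (by nlinarith) f2 (by positivity) (by
        have := mul_le_mul_of_nonneg_right (show 2 * ((2 * (D : ℝ) + 2) * (1 - p)) + exp (-x) ≤ t by
          rw [ht]; linarith) (show 0 ≤ 1 + 2 * t by positivity)
        nlinarith)
    have hc' : perc D p Gᶜ ≤ ENNReal.ofReal (6 * D * (1 - p)) := by
      rw [prob_compl_eq_one_sub hm, hP, ← ENNReal.ofReal_one,
        ← ENNReal.ofReal_sub _ (pow_nonneg (by linarith) _)]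
      exact ENNReal.ofReal_le_ofReal (by linarith)
    rw [← lintegral_add_compl _ hm]
    refine (add_le_add (setLIntegral_mono' hm hU)
      (setLIntegral_mono' hm.compl fun ω _ => hz ω)).trans ?_
    rw [setLIntegral_const, setLIntegral_const]
    refine (add_le_add (mul_le_of_le_one_right' prob_le_one) (mul_le_mul' le_rfl hc')).trans ?_
    rw [← ENNReal.ofReal_mul hC, ← ENNReal.ofReal_add (by positivity) (by positivity)]
    refine ENNReal.ofReal_le_ofReal ?_
    have r1 := mul_le_of_le_one_left (show 0 ≤ 2 * t by positivity) i1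
    rw [hA] at uζ
    nlinarith

end Pool.Agent.MP_8c549f_pr.PK
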