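import Pool.Agent.MP_8c549f_pr.PK.Spec

/-! PROJECT PK, row KOV: the value of the weight of a regular shape. -/

set_option autoImplicit false

namespace Pool.Agent.MP_8c549f_pr.PK

open MeasureTheory Filter Topology Real
open scoped ENNReal NNReal

attribute [local irreducible] T1 T2 g1 g2 NN Box tr PhiS KoutM.G1 KoutM.G2

open KoutM in
theorem kov (hV : KCVStmt) : KOVStmt := by
  classical
  intro D hD
  have hD1 : 1 ≤ D := by omega
  obtain ⟨Q, A, μ₀, hQ, hA0, hμ₀, hK⟩ := kptS D hD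
  obtain ⟨CB, eB, hCB, heB, hB⟩ := kbS D hD
  obtain ⟨eA, heA, hA⟩ := kaS D hD1
  obtain ⟨c, -, hC⟩ := kcS D hD
  obtain ⟨R, CM, μ₁, hCM, hM⟩ := kmom D Q 7 A (1 / (2 * D + 2)) CB 0 hD1 (by omega) hA0
    (by positivity) ((al_le D).2.trans (by norm_num)) hCB
  have hCC : 1 ≤ CB * CM := one_le_mul_of_one_le_of_one_le hCB hCM
  refine ⟨Q, by omega, fun ζ hζ => ?_⟩
  obtain ⟨eC, heC, hC⟩ := hC 1 one_pos
  obtain ⟨eV, heV, hV⟩ := hV D hD (ζ / 2) (by positivity)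
  obtain ⟨s, hs0, hs1, hs2⟩ : ∃ s : ℝ, 0 < s ∧ s ≤ 1 ∧ 242 * s * (CB * CM) ≤ ζ / 2 := by
    refine ⟨min 1 (ζ / 2 / (242 * (CB * CM))), by positivity, min_le_left _ _, ?_⟩
    linarith [(le_div_iff₀ (by positivity)).1 (min_le_right 1 (ζ / 2 / (242 * (CB * CM))))]
  have hD' : (2 : ℝ) ≤ D := by exact_mod_cast hD
  obtain ⟨μ₂, hμ₂⟩ : ∃ μ₂ : ℝ, ∀ μ, μ₂ ≤ μ → 8 * D * (D + 1) * exp (-μ / 64) ≤ s ^ 2 := by
    refine ⟨-64 * log (s ^ 2 / (8 * D * (D + 1))), fun μ h => ?_⟩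
    rw [mul_comm, ← le_div_iff₀ (by positivity), ← le_log_iff_exp_le (by positivity)]
    linarith
  obtain ⟨eW, heW, hW⟩ := win_mu hD (max μ₀ (max μ₁ μ₂))
  refine ⟨min eV (min (min eA eB) (min eC eW)), by positivity, fun p α β hp hw S hS hν => ?_⟩
  have n0 := min_le_right eV (min (min eA eB) (min eC eW))
  have n1 := min_le_left (min eA eB) (min eC eW)
  have n2 := min_le_right (min eA eB) (min eC eW)
  have pV : 1 - eV ≤ p := by linarith [min_le_left eV (min (min eA eB) (min eC eW))]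
  have pA : 1 - eA ≤ p := by linarith [min_le_left eA eB]
  have pB : 1 - eB ≤ p := by linarith [min_le_right eA eB]
  have pC : 1 - eC ≤ p := by linarith [min_le_left eC eW]
  have pW : 1 - eW ≤ p := by linarith [min_le_right eC eW]
  have hp1 := hw.1
  have hA' := hA p pA hp1
  have pr := ((profS D hD).2 S hS).2
  have key : ∀ x ∈ Set.Icc α β, ∃ μ, μ₂ ≤ μ ∧ Pt D Q A CB CM p x μ S 0 := fun x hx => by
    obtain ⟨μ, a, b, d, e, -⟩ := hW p x pW hp1 (hw.mem hx).1 (hw.mem hx).2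
    have m0 : μ₀ ≤ μ := (le_max_left _ _).trans a
    have m1 : μ₁ ≤ μ := (le_max_left _ _).trans ((le_max_right _ _).trans a)
    have m2 : μ₂ ≤ μ := (le_max_right _ _).trans ((le_max_right _ _).trans a)
    have k := fun (u : V D) (hu : 0 ≤ u 0) => hK p x μ (tr u S) u _ 0 m0
      ⟨hp1.le, b.le, e, (pr u).1⟩ ((pr u).2.2 hu).1 (((pr u).2.2 hu).2 Q 0 hν)
    have mo := hM p x μ 0 _ _ m1 hp1.le b.le e (ptb_sup fun u hu => (k u hu).1)
    refine ⟨μ, m2, fun u hu => (k u hu).1, fun u hu => (k u hu).2, mo.1, mo.2.1,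
      fun u hu m r i r' => ⟨_, ?_, hB p x pB hp1.le (by linarith) (hw.mem hx).2 _ u _ (pr u).1
        (pr u).2.1 m r i r'⟩, fun u m r i r' hu => ((hA' _).2 u m r i r').2.2 hu x,
      by linarith, hp1.le, b, by linarith, e⟩
    exact ((((pr u).2.2 hu).2 Q 0 hν).le (by omega) m).trans
      (Nat.add_le_add_left (Nat.div_le_self _ _) _)
  have e3 := hν.le (by omega) 3
  rw [Nat.div_eq_of_lt (by omega)] at e3
  simp only [ks, Finset.sum_range_succ, Finset.range_zero, Finset.sum_empty, zero_add,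
    Nat.cast_zero, Nat.cast_one, Nat.cast_ofNat] at e3
  obtain ⟨c1, -⟩ := hC p α β pC hw S hS (by omega) (by omega) (by omega)
  have M1 : 0 ≤ 121 * (2 * s * CB ^ (0 + 1)) * CM ^ (0 + 1) := by positivity
  have M2 : ENNReal.ofReal (121 * (2 * s * CB ^ (0 + 1)) * CM ^ (0 + 1)) ≤ ENNReal.ofReal (ζ / 2) :=
    ENNReal.ofReal_le_ofReal (by nlinarith)
  have es : ∀ {x μ : ℝ}, μ₂ ≤ μ → Pt D Q A CB CM p x μ S 0 → 1 - p ≤ s := fun {x μ} hμ h => by
    have a := hμ₂ μ hμ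
    have b : exp (-μ) ≤ exp (-μ / 64) := exp_le_exp.2 (by linarith [h.mu])
    have d := exp_pos (-μ / 64)
    have e : exp (-μ / 64) ≤ 8 * D * (D + 1) * exp (-μ / 64) :=
      le_mul_of_one_le_left d.le (by nlinarith)
    rw [h.eps]
    nlinarith
  obtain ⟨d1, -⟩ := lip1 lip2 (p := p) (α := α) (β := β) (S := S) (fun q => q ≠ (0, 2, 1))
    (fun u m r => ((hA' (tr u S)).2 u m r 0 0).1) M1 fun x hx => by
      obtain ⟨μ, hμ, h⟩ := key x hx
      exact h.s1 hCB (es hμ h) _ (h.small hD hQ (hμ₂ μ hμ) (c1 x hx).2.1 (c1 x hx).2.2).1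
  obtain ⟨f1, -⟩ := lip2' lip2 (p := p) (α := α) (β := β) (S := S)
    (fun u m r i r' => ((hA' (tr u S)).2 u m r i r').2.1) M1 fun x hx => by
      obtain ⟨μ, hμ, h⟩ := key x hx
      exact h.s2 hCB (es hμ h) (h.small hD hQ (hμ₂ μ hμ) (c1 x hx).2.1 (c1 x hx).2.2).2
  intro x hx
  have id := (hA' S).1 x (by
    obtain ⟨μ, -, h⟩ := key x hx
    exact h.mu.trans h.le)
  have sp := split (fun q : V D × ℕ × ℕ => T1 p x (tr q.1 S) q.1 q.2.1 q.2.2) (0, 2, 1)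
  simp only [tr_zero] at sp
  obtain ⟨v1, v2⟩ := hV p x pV hp1 (hw.mem hx).1 (hw.mem hx).2 S hS (by omega) (by omega)
  constructor
  · rw [show 1 / (2 * D) - ζ = 1 / (2 * (D : ℝ)) - ζ / 2 - ζ / 2 by ring,
      ENNReal.ofReal_sub _ (by positivity), tsub_le_iff_right]
    exact v1.trans (le_self_add.trans (sp.ge.trans (id.ge.trans
      (add_le_add le_rfl ((f1 x hx).trans M2)))))
  · rw [show 1 / (2 * D) + ζ = 1 / (2 * (D : ℝ)) + ζ / 2 + ζ / 2 by ring,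
      ENNReal.ofReal_add (by positivity) (by positivity)]
    exact le_self_add.trans (id.le.trans (sp.le.trans (add_le_add v2 ((d1 x hx).trans M2))))

end Pool.Agent.MP_8c549f_pr.PK
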