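import Pool.Agent.MP_8c549f_pr.PK.Spec

/-! The real variable form of the last step. -/

namespace Pool.Agent.MP_8c549f_pr.PK

open Real

namespace LocM

theorem core {ζ v φ w x κ : ℝ} (z0 : 0 < ζ) (z1 : ζ ≤ 1 / 100) (f0 : 0 ≤ φ) (hw : w ≤ 1 + v + 2 * ζ)
    (hx : v ≤ 2 → 1 - 2 * ζ ≤ x) (x0 : 0 < x) (k1 : 1 ≤ κ) (k2 : κ ≤ 1 + 5 * ζ)
    (A : (1 - ζ) * x ≤ w * (φ + ζ)) (B : κ * v + φ / (1 + ζ) ≤ 1 + 3 * ζ + ζ * |v|) :
    v ^ 2 ≤ 70 * ζ := by
  have w0 : 0 < w := by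
    by_contra h
    have : w * (φ + ζ) ≤ 0 := mul_nonpos_of_nonpos_of_nonneg (not_lt.1 h) (by positivity)
    nlinarith
  obtain ⟨ψ, rfl⟩ : ∃ ψ, φ = ψ * (1 + ζ) := ⟨φ / (1 + ζ), by field_simp⟩
  have p0 : 0 ≤ ψ := nonneg_of_mul_nonneg_left f0 (by positivity)
  rw [mul_div_cancel_right₀ _ (by positivity)] at B
  have v1 : -2 ≤ v := by linarith
  have v2 : v ≤ 2 ∧ ψ ≤ 1 - v + 15 * ζ := by
    rcases le_total 0 v with h | h
    · rw [abs_of_nonneg h] at B
      have : v ≤ 2 := by nlinarith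
      exact ⟨this, by nlinarith⟩
    · rw [abs_of_nonpos h] at B
      exact ⟨by linarith, by nlinarith⟩
  have e1 : ψ * (1 + ζ) + ζ ≤ 1 - v + 20 * ζ := by nlinarith [v2.2]
  have e2 : w * (ψ * (1 + ζ) + ζ) ≤ (1 + v + 2 * ζ) * (1 - v + 20 * ζ) :=
    mul_le_mul hw e1 (by positivity) (by linarith)
  have e3 : (1 - ζ) * (1 - 2 * ζ) ≤ (1 - ζ) * x := mul_le_mul_of_nonneg_left (hx v2.1) (by linarith)
  nlinarith [v2.1]

theorem t0 (D : ℕ) {x : ℝ} (h : exp (-x) < 1) :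
    T0 D x = (1 + exp (-x) ^ 2 + 2 * D * exp (-x)) / (1 - exp (-x) ^ 2) := by
  have u0 := exp_pos (-x)
  have e : exp x = (exp (-x))⁻¹ := by rw [exp_neg, inv_inv]
  have : 1 - exp (-x) ^ 2 ≠ 0 := by nlinarith
  rw [T0, Zf, e]
  generalize exp (-x) = u at *
  have : u⁻¹ - u ≠ 0 := by
    have : u⁻¹ - u = (1 - u ^ 2) / u := by field_simp
    rw [this]
    positivity
  field_simp

theorem dif {d U W ζ : ℝ} (hd : 1 ≤ d) (z1 : ζ ≤ 1 / 100) (u0 : 0 < U) (u1 : U ≤ ζ) (w0 : 0 < W)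
    (w1 : W ≤ ζ) : ∃ k, 1 ≤ k ∧ k ≤ 1 + 3 * ζ ∧ (1 + U ^ 2 + 2 * d * U) / (1 - U ^ 2) -
      (1 + W ^ 2 + 2 * d * W) / (1 - W ^ 2) = 2 * d * k * (U - W) := by
  have a1 : U ^ 2 ≤ ζ ^ 2 := by gcongr
  have a2 : W ^ 2 ≤ ζ ^ 2 := by gcongr
  have z0 : 0 < ζ := by linarith
  have z2 : ζ ^ 2 ≤ ζ / 100 := by nlinarith
  have b1 : 0 < 1 - U ^ 2 := by linarith
  have b2 : 0 < 1 - W ^ 2 := by linarith
  have c1 : (U + W) / d ≤ 2 * ζ := (div_le_self (by positivity) hd).trans (by linarith)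
  have c0 : 0 ≤ (U + W) / d := by positivity
  have c2 : U * W ≤ ζ ^ 2 := by rw [sq]; gcongr
  have c3 : 1 - 2 * ζ ^ 2 ≤ (1 - U ^ 2) * (1 - W ^ 2) := by nlinarith [sq_nonneg (U * W)]
  refine ⟨((U + W) / d + 1 + U * W) / ((1 - U ^ 2) * (1 - W ^ 2)), ?_, ?_, ?_⟩
  · rw [le_div_iff₀ (by positivity)]
    nlinarith [mul_pos u0 w0, sq_nonneg U, mul_nonneg (sq_nonneg W) b1.le]
  · rw [div_le_iff₀ (by positivity)]
    have : (1 + 3 * ζ) * (1 - 2 * ζ ^ 2) ≤ (1 + 3 * ζ) * ((1 - U ^ 2) * (1 - W ^ 2)) := by gcongr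
    nlinarith
  · field_simp
    ring

end LocM

open LocM in
theorem locS : LOCStmt := by
  intro D hD η hη
  have d1 : (1 : ℝ) ≤ D := by exact_mod_cast hD
  obtain ⟨ζ, z0, z1, z2⟩ : ∃ ζ : ℝ, 0 < ζ ∧ ζ ≤ 1 / 100 ∧ 70 * ζ ≤ η ^ 2 :=
    ⟨min (1 / 100) (η ^ 2 / 70), by positivity, min_le_left _ _, by
      linarith [min_le_right (1 / 100) (η ^ 2 / 70)]⟩
  refine ⟨ζ, ζ / D, z0, by positivity, ?_⟩
  intro r s L F G b c R r0 r1 hL hs F0 A hG hb hc hR B
  have r2 : D * r ≤ ζ := by rwa [le_div_iff₀' (by positivity)] at r1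
  have r3 : r ≤ ζ := (le_mul_of_one_le_left r0.le d1).trans r2
  have r4 : r ^ 2 ≤ r / 100 := by nlinarith only [r0, r3, z1]
  have E1 : (r ^ 2) ^ D ≤ r ^ 2 := pow_le_of_le_one (by positivity) (by linarith) (by omega)
  have E0 : 0 < (r ^ 2) ^ D := by positivity
  generalize (r ^ 2) ^ D = E at *
  obtain ⟨t, ht⟩ : ∃ t, t = r / (2 * D) := ⟨_, rfl⟩
  have t1 : 2 * D * t = r := by rw [ht]; field_simp
  have t0' : 0 < t := by rw [ht]; positivity
  have t2 : 2 * t ≤ r := by nlinarith only [t1, t0', d1]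
  rw [← ht] at hR B ⊢
  have ex : ∀ y : ℝ, y ≤ 1 / 2 → exp y ≤ 1 / (1 - y) := fun y hy => by
    rw [le_div_iff₀ (by linarith)]
    have := add_one_le_exp (-y)
    have e : exp y * exp (-y) = 1 := by rw [← exp_add]; simp
    nlinarith only [exp_pos y, this, e]
  have ex2 : ∀ y : ℝ, y ≤ 1 / 2 → exp y ≤ 2 := fun y hy =>
    (ex y hy).trans (by rw [div_le_iff₀ (by linarith)]; linarith)
  obtain ⟨s1, s2⟩ := abs_le.1 hs
  have hU : exp (-(L - s)) = E * exp s := by rw [← hL, ← exp_add]; congr 1; ring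
  have hW : exp (-(L - t)) = E * exp t := by rw [← hL, ← exp_add]; congr 1; ring
  have sm : ∀ y : ℝ, y ≤ 1 / 2 → E * exp y ≤ ζ := fun y hy => by
    have : E * exp y ≤ r ^ 2 * 2 := mul_le_mul E1 (ex2 y hy) (exp_pos y).le (by positivity)
    linarith
  have u1 := sm s (by linarith)
  have w1 := sm t (by linarith)
  obtain ⟨k, k1, k2, hk⟩ := dif d1 z1 (mul_pos E0 (exp_pos s)) u1 (mul_pos E0 (exp_pos t)) w1
  rw [t0 D (by rw [hU]; linarith), t0 D (x := L - t) (by rw [hW]; linarith), hU, hW] at B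
  obtain ⟨v, rfl⟩ : ∃ v, s = t + v * t := ⟨(s - t) / t, by field_simp; ring⟩
  obtain ⟨φ, rfl⟩ : ∃ φ, F = φ * (r * E) := ⟨F / (r * E), by field_simp⟩
  have f0 : 0 ≤ φ := nonneg_of_mul_nonneg_left F0 (by positivity)
  have ab : |t + v * t - t| = |v| * t := by rw [add_sub_cancel_left, abs_mul, abs_of_pos t0']
  rw [ab] at hR ⊢
  obtain ⟨b1, b2⟩ := abs_le.1 hb
  obtain ⟨c1, c2⟩ := abs_le.1 hc
  have et : exp t ≤ 1 + ζ := (ex t (by linarith)).trans (by
    rw [div_le_iff₀ (by linarith)]; nlinarith only [t2, r3, z0, z1, t0'])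
  have et1 : 1 ≤ exp t := one_le_exp t0'.le
  have h := core (v := v) (φ := φ) (w := 1 + v + 2 * D * r) (x := exp (-(t + v * t)))
    (κ := k * exp t) z0 z1 f0 (by linarith) (fun h => ?_) (exp_pos _) (one_le_mul_of_one_le_of_one_le k1 et1) (by
      have : k * exp t ≤ (1 + 3 * ζ) * (1 + ζ) := mul_le_mul k2 et (exp_pos _).le (by positivity)
      nlinarith only [this, z0, z1]) ?_ ?_
  · have : |v| ≤ η := abs_le_of_sq_le_sq' (by linarith) hη.le |> abs_le.2
    exact mul_le_mul this (by linarith) t0'.le hη.le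
  · have := add_one_le_exp (-(t + v * t))
    have := mul_le_mul_of_nonneg_right h t0'.le
    linarith
  · have y1 : 1 - (1 - r ^ 2) * exp (-(2 * (t + v * t))) ≤ 2 * (t + v * t) + 2 * r ^ 2 := by
      have := add_one_le_exp (-(2 * (t + v * t)))
      have := mul_le_mul_of_nonneg_left (ex2 (-(2 * (t + v * t))) (by linarith)) (sq_nonneg r)
      linarith
    have y2 : D * (2 * (t + v * t) + 2 * r ^ 2) = r * (1 + v + 2 * D * r) := by
      linear_combination (1 + v) * t1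
    have y3 : D * (1 - (1 - r ^ 2) * exp (-(2 * (t + v * t)))) ≤ r * (1 + v + 2 * D * r) := by
      rw [← y2]; exact mul_le_mul_of_nonneg_left y1 (by positivity)
    have y4 := A.trans (mul_le_mul_of_nonneg_right y3 (by positivity))
    have y5 : (1 - ζ) * exp (-(t + v * t)) ≤ (1 + v + 2 * D * r) * (φ + ζ * r) :=
      le_of_mul_le_mul_right (a := r ^ 2 * E) (by linarith) (by positivity)
    have y6 : 0 < 1 + v + 2 * D * r := by
      by_contra h
      have : (1 + v + 2 * D * r) * (φ + ζ * r) ≤ 0 :=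
        mul_nonpos_of_nonpos_of_nonneg (not_lt.1 h) (by positivity)
      have : 0 < (1 - ζ) * exp (-(t + v * t)) := mul_pos (by linarith) (exp_pos _)
      linarith
    refine y5.trans (mul_le_mul_of_nonneg_left ?_ y6.le)
    have := mul_le_of_le_one_right z0.le (show r ≤ 1 by linarith)
    linarith
  · have g1 : G / c ≤ (1 + 3 * ζ) * (r * E) := by
      rw [div_le_iff₀ (by linarith)]
      have : 1 + ζ ≤ (1 + 3 * ζ) * c := by nlinarith only [c1, z0, z1]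
      have := mul_le_mul_of_nonneg_right this (mul_pos r0 E0).le
      linarith
    have g2 : φ / (1 + ζ) * (r * E) ≤ φ * (r * E) / b := by
      rw [div_mul_eq_mul_div]
      exact div_le_div_of_nonneg_left F0 (by linarith) (by linarith)
    have g3 : R ≤ ζ * |v| * (r * E) := by
      have := mul_le_mul_of_nonneg_left (show t ≤ r by linarith)
        (show 0 ≤ ζ * E * |v| by positivity)
      linarith [le_abs_self R]
    have g4 : exp t * (v * t) ≤ exp (t + v * t) - exp t := by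
      rw [exp_add]
      linarith [mul_le_mul_of_nonneg_left (add_one_le_exp (v * t)) (exp_pos t).le]
    have g5 : k * exp t * v * (r * E) ≤ 2 * D * k * (E * exp (t + v * t) - E * exp t) := by
      have := mul_le_mul_of_nonneg_left g4 (show 0 ≤ 2 * D * k * E by positivity)
      rw [← t1]
      linarith
    exact le_of_mul_le_mul_right (a := r * E) (by linarith) (by positivity)

end Pool.Agent.MP_8c549f_pr.PK
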