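import Pool.Agent.MP_8c549f_pr.PK.Spec

/-!
PROJECT PK, row MRL: one more level of a straight tube, lower bound.
-/

set_option autoImplicit false

namespace Pool.Agent.MP_8c549f_pr.PK

open MeasureTheory Filter Topology Real
open scoped ENNReal NNReal

namespace MrlM

variable {D : ℕ}

/-- the side edges at `e0` -/
noncomputable def sd (D : ℕ) : Finset (Edge D) :=
  Finset.univ.image fun q : Fin D × Bool => edge (e0 D) (q.1.succ, q.2)

theorem sd_card : (sd D).card = 2 * D := by
  rw [sd, Finset.card_image_of_injective]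
  · simp [mul_comm]
  · rintro ⟨k, g⟩ ⟨k', g'⟩ h
    have h2 := congrArg Prod.snd h
    have h1 := congrArg (fun e : Edge D => e.1 k.succ) h
    have hk : k = k' := by
      cases g <;> cases g' <;> simpa [edge] using h2
    subst hk
    cases g <;> cases g' <;> simp [edge] at h1 ⊢ <;> omega

theorem mem_sd {f : Edge D} (h : f ∈ sd D) : f.1 0 = 1 ∧ f.2 ≠ 0 := by
  obtain ⟨⟨k, g⟩, -, rfl⟩ := Finset.mem_image.1 h
  cases g <;> simp [edge, Fin.succ_ne_zero]

theorem only {ω : Cfg D} (h : ∀ f ∈ sd D, ω f = false) {s : Step D}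
    (hs : ω (edge (e0 D) s) = true) : s = fwd D ∨ s = bck D := by
  rcases step_cases s with a | a | ⟨k, g, rfl⟩
  · exact Or.inl a
  · exact Or.inr a
  · rw [h _ (Finset.mem_image.2 ⟨(k, g), Finset.mem_univ _, rfl⟩)] at hs
    exact absurd hs (by simp)

theorem gk_shift (lam : ℝ) (m : ℤ) :
    ENNReal.ofReal (exp (2 * lam)) * gk 0 lam (m - 2) = gk 0 lam m := by
  unfold gk
  rw [← ENNReal.ofReal_mul (exp_pos _).le, pow_zero, pow_zero, one_mul, one_mul, ← exp_add]
  congr 2
  push_cast
  ring

theorem self_bush (ω : Cfg D) : e0 D ∈ Bush ω (0 : V D) := by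
  have := self_mem_Up ω ((0 : V D) 0 + 1) (0 + e0 D)
  rw [Bush]
  simpa using this

theorem caseA {ω : Cfg D} (lam : ℝ) (h : ℕ) (ho : ω (edge 0 (fwd D)) = true)
    (hc : ∀ f ∈ sd D, ω f = false) (hf : ω (edge (e0 D) (fwd D)) = false) :
    ω ∈ NastM.RH (0 : V D) (h + 1) ∧ ENNReal.ofReal (2 * exp lam) ≤ pih (gk 0 lam) ω 0 := by
  have hB : Bush ω (0 : V D) ⊆ {e0 D} := by
    refine Up_subset (by simp) fun y hy s _ hs _ hl => ?_
    rw [Set.mem_singleton_iff] at hy
    subst hy
    rcases only hc hs with rfl | rfl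
    · rw [hf] at hs
      exact absurd hs (by simp)
    · simp at hl
  refine ⟨⟨⟨ho, (Set.finite_singleton _).subset hB, fun z hz _ _ => ?_⟩, fun z hz => ?_⟩, ?_⟩
  · rw [zero_add]; exact hB hz
  · rw [hB hz]
    simp
  · have g1 : gk 0 lam 1 = ENNReal.ofReal (exp lam) := by simp [gk]
    rw [two_mul, ENNReal.ofReal_add (exp_pos _).le (exp_pos _).le, pih, ← g1]
    refine add_le_add le_rfl (le_trans ?_ (ENNReal.le_tsum (e0 D)))
    rw [Set.indicator_of_mem (self_bush ω)]
    refine le_trans ?_ (Finset.single_le_sum (fun _ _ => zero_le) (Finset.mem_univ (bck D)))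
    have e : edge (e0 D) (bck D) = edge 0 (fwd D) := by
      rw [← edge_fwd_eq, zero_add]
    rw [e, if_pos ho]
    simp [expo]

theorem caseB {ω : Cfg D} (lam : ℝ) (h : ℕ) (ho : ω (edge 0 (fwd D)) = true)
    (hc : ∀ f ∈ sd D, ω f = false) (hR : ω ∈ NastM.RH (e0 D) h) :
    ω ∈ NastM.RH (0 : V D) (h + 1) ∧
      ENNReal.ofReal (exp (2 * lam)) * pih (gk 0 lam) ω (e0 D) ≤ pih (gk 0 lam) ω 0 := by
  obtain ⟨hR, hl⟩ := hR
  have hB : Bush ω (0 : V D) ⊆ insert (e0 D) (Bush ω (e0 D)) := by
    refine Up_subset (by simp) fun y hy s _ hs _ hl => ?_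
    rcases hy with rfl | hy
    · rcases only hc hs with rfl | rfl
      · rw [vec_fwd_e0]
        exact Or.inr (self_mem_Up _ _ _)
      · simp at hl
    · by_cases k : y + vec s ∈ Bush ω (e0 D)
      · exact Or.inr k
      · obtain ⟨rfl, rfl⟩ := hR.exit hy hs k
        left
        rw [vec_bck_e0]
        simp
  have hB' : Bush ω (e0 D) ⊆ Bush ω (0 : V D) := by
    refine Up_subset ?_ fun y hy s _ hs _ hl => Up_step (by simp) hy hs ?_
    · have := Up_step (s := fwd D) (by simp) (self_bush ω) hR.1 (by simp)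
      rwa [vec_fwd_e0] at this
    · simp only [Pi.zero_apply, e0_zero] at hl ⊢
      omega
  have hn : e0 D ∉ Bush ω (e0 D) := fun k => by
    have := Bush_level k
    omega
  refine ⟨⟨⟨ho, (hR.2.1.insert _).subset hB, fun z hz a _ => ?_⟩, fun z hz => ?_⟩, ?_⟩
  · rw [zero_add]
    refine (hB hz).resolve_right fun k => ?_
    have := Bush_level k
    simp only [Pi.zero_apply, e0_zero] at this a
    omega
  · rcases hB hz with rfl | k
    · simp
    · have := hl z k
      simp only [Pi.zero_apply, e0_zero] at this ⊢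
      push_cast
      omega
  · set F : V D → ℝ≥0∞ := fun z => ∑ s : Step D,
      if ω (edge z s) = true then gk 0 lam (expo z s - 2 * (0 : V D) 0) else 0 with hF
    have a1 : ENNReal.ofReal (exp (2 * lam)) * pih (gk 0 lam) ω (e0 D) =
        gk 0 lam 3 + ∑' z, (Bush ω (e0 D)).indicator F z := by
      rw [pih, mul_add, ← ENNReal.tsum_mul_left, ← gk_shift lam 3]
      congr 1
      refine tsum_congr fun z => ?_
      by_cases k : z ∈ Bush ω (e0 D)
      · rw [Set.indicator_of_mem k, Set.indicator_of_mem k, hF, Finset.mul_sum]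
        refine Finset.sum_congr rfl fun s _ => ?_
        split_ifs
        · rw [← gk_shift lam (expo z s - 2 * (0 : V D) 0)]
          simp
        · simp
      · rw [Set.indicator_of_notMem k, Set.indicator_of_notMem k, mul_zero]
    have a2 : gk 0 lam 3 ≤ F (e0 D) := by
      refine le_trans ?_ (Finset.single_le_sum (fun _ _ => zero_le) (Finset.mem_univ (fwd D)))
      rw [if_pos hR.1]
      simp [expo]
    have a3 : F (e0 D) = ∑' z, ({e0 D} : Set (V D)).indicator F z := by
      rw [tsum_eq_single (e0 D) fun z hz => Set.indicator_of_notMem (by simpa using hz) _]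
      simp
    rw [a1, pih]
    refine le_trans ?_ le_add_self
    refine (add_le_add (a2.trans a3.le) le_rfl).trans ?_
    rw [← ENNReal.tsum_add]
    refine ENNReal.tsum_le_tsum fun z => ?_
    by_cases k : z = e0 D
    · subst k
      rw [Set.indicator_of_notMem hn, add_zero, Set.indicator_of_mem (self_bush ω),
        Set.indicator_of_mem (Set.mem_singleton _)]
    · rw [Set.indicator_of_notMem (show z ∉ ({e0 D} : Set (V D)) from k), zero_add]
      exact Set.indicator_le_indicator_of_subset hB' (fun _ => zero_le) z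

/-- the edges of `O` are open and the edges of `K` are closed -/
def Cy (O K : Finset (Edge D)) : Set (Cfg D) :=
  {ω | (∀ e ∈ O, ω e = true) ∧ ∀ e ∈ K, ω e = false}

theorem dep_Cy (O K : Finset (Edge D)) :
    Dep (fun ω => ω ∈ Cy O K) ((O ∪ K : Finset (Edge D)) : Set (Edge D)) := by
  intro ω ω' k
  refine propext (and_congr (forall₂_congr fun f hf => ?_) (forall₂_congr fun f hf => ?_))
  · rw [k f (by simp [hf])]
  · rw [k f (by simp [hf])]

theorem meas_Cy (O K : Finset (Edge D)) : MeasurableSet (Cy O K) :=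
  (dep_Cy O K).measurableSet (Finset.finite_toSet _)

end MrlM

open MrlM in
theorem mrl : MRLStmt := by
  intro D hD p lam h0 h1 h
  have hq : 0 ≤ 1 - p := by linarith
  have n1 : edge (0 : V D) (fwd D) ∉ sd D := fun k => (mem_sd k).2 (by simp [edge, fwd])
  have n2 : edge (e0 D) (fwd D) ∉ sd D := fun k => (mem_sd k).2 (by simp [edge, fwd])
  have n3 : edge (0 : V D) (fwd D) ≠ edge (e0 D) (fwd D) := fun k => by
    have := congrArg (fun e : Edge D => e.1 0) k
    simp [edge, fwd] at this
  have c1 : perc D p (Cy {edge 0 (fwd D)} (sd D)) = ENNReal.ofReal (p * (1 - p) ^ (2 * D)) := by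
    have := cyl D p h0 h1 {edge 0 (fwd D)} (sd D) (by simpa using n1)
    rwa [Finset.card_singleton, pow_one, sd_card] at this
  have c2 : perc D p (Cy {edge 0 (fwd D)} (insert (edge (e0 D) (fwd D)) (sd D))) =
      ENNReal.ofReal (p * (1 - p) ^ (2 * D + 1)) := by
    have := cyl D p h0 h1 {edge 0 (fwd D)} (insert (edge (e0 D) (fwd D)) (sd D))
      (by simp [n1, n3])
    rwa [Finset.card_singleton, pow_one, Finset.card_insert_of_notMem n2, sd_card] at this
  have m1 : Measurable ((Cy {edge 0 (fwd D)} (sd D)).indicator (1 : Cfg D → ℝ≥0∞)) :=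
    measurable_one.indicator (meas_Cy _ _)
  have m2 := ((meas D 0).2.2.2.1 (gk 0 lam) (e0 D)).indicator (NastM.meas_RH meas (e0 D) h)
  have i2 : ∫⁻ ω, (Cy {edge 0 (fwd D)} (sd D)).indicator (1 : Cfg D → ℝ≥0∞) ω *
      (NastM.RH (e0 D) h).indicator (fun ω => pih (gk 0 lam) ω (e0 D)) ω ∂perc D p =
      ENNReal.ofReal (p * (1 - p) ^ (2 * D)) * MB D (gk 0 lam) p h := by
    rw [ind D p h0 h1 _ _ (({edge 0 (fwd D)} ∪ sd D : Finset (Edge D)) : Set (Edge D))
      {f | e0 D 0 + 1 ≤ f.1 0 ∨ (f.1 0 = e0 D 0 ∧ f.2 = 0)} m1 m2,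
      lintegral_indicator_one (meas_Cy _ _), lintegral_indicator (NastM.meas_RH meas _ h),
      NastM.RH, mbeS D hD p h0 h1, c1]
    · intro ω ω' k
      have : ω ∈ Cy {edge 0 (fwd D)} (sd D) ↔ ω' ∈ Cy {edge 0 (fwd D)} (sd D) :=
        iff_of_eq (dep_Cy _ _ ω ω' k)
      by_cases c : ω ∈ Cy {edge 0 (fwd D)} (sd D)
      · rw [Set.indicator_of_mem c, Set.indicator_of_mem (this.1 c), Pi.one_apply, Pi.one_apply]
      · rw [Set.indicator_of_notMem c, Set.indicator_of_notMem (mt this.2 c)]
    · intro ω ω' k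
      obtain ⟨k1, k2, k3⟩ := bush_congr (e0 D) k
      have : ω ∈ NastM.RH (e0 D) h ↔ ω' ∈ NastM.RH (e0 D) h := by
        simp only [NastM.RH, Set.mem_ofPred_eq, k1, k2]
      by_cases c : ω ∈ NastM.RH (e0 D) h
      · rw [Set.indicator_of_mem c, Set.indicator_of_mem (this.1 c), k3]
      · rw [Set.indicator_of_notMem c, Set.indicator_of_notMem (mt this.2 c)]
    · refine Set.disjoint_left.2 fun f hf hf' => ?_
      rcases Finset.mem_union.1 hf with a | a
      · rw [Finset.mem_singleton.1 a] at hf'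
        simp [edge, fwd] at hf'
      · obtain ⟨a1, a2⟩ := mem_sd a
        rcases hf' with c | c
        · rw [a1] at c
          simp at c
        · exact a2 c.2
  have key : ∀ ω : Cfg D,
      (Cy {edge 0 (fwd D)} (insert (edge (e0 D) (fwd D)) (sd D))).indicator
        (fun _ => ENNReal.ofReal (2 * exp lam)) ω + ENNReal.ofReal (exp (2 * lam)) *
        ((Cy {edge 0 (fwd D)} (sd D)).indicator (1 : Cfg D → ℝ≥0∞) ω *
          (NastM.RH (e0 D) h).indicator (fun ω => pih (gk 0 lam) ω (e0 D)) ω) ≤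
      (NastM.RH (0 : V D) (h + 1)).indicator (fun ω => pih (gk 0 lam) ω 0) ω := by
    intro ω
    by_cases a : ω ∈ Cy {edge 0 (fwd D)} (insert (edge (e0 D) (fwd D)) (sd D))
    · have hf := a.2 _ (Finset.mem_insert_self _ _)
      obtain ⟨b1, b2⟩ := caseA lam h (a.1 _ (Finset.mem_singleton_self _))
        (fun f k => a.2 f (Finset.mem_insert_of_mem k)) hf
      have nb : ω ∉ NastM.RH (e0 D) h := fun k => by
        have := k.1.1
        rw [hf] at this
        exact absurd this (by simp)
      rw [Set.indicator_of_mem a, Set.indicator_of_mem b1, Set.indicator_of_notMem nb, mul_zero,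
        mul_zero, add_zero]
      exact b2
    · rw [Set.indicator_of_notMem a, zero_add]
      by_cases b : ω ∈ Cy {edge 0 (fwd D)} (sd D)
      · by_cases c : ω ∈ NastM.RH (e0 D) h
        · obtain ⟨b1, b2⟩ := caseB lam h (b.1 _ (Finset.mem_singleton_self _)) b.2 c
          rw [Set.indicator_of_mem b, Set.indicator_of_mem b1, Set.indicator_of_mem c,
            Pi.one_apply, one_mul]
          exact b2
        · rw [Set.indicator_of_notMem c, mul_zero, mul_zero]
          exact zero_le
      · rw [Set.indicator_of_notMem b, zero_mul, mul_zero]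
        exact zero_le
  have fin := lintegral_mono (μ := perc D p) key
  rw [lintegral_add_left (measurable_const.indicator (meas_Cy _ _)),
    lintegral_const_mul' _ _ ENNReal.ofReal_ne_top, i2, lintegral_indicator_const (meas_Cy _ _), c2,
    lintegral_indicator (NastM.meas_RH meas _ _), NastM.RH, mbeS D hD p h0 h1] at fin
  refine le_trans (le_of_eq ?_) fin
  rw [mul_add, mul_left_comm, ← ENNReal.ofReal_mul (by positivity),
    ← ENNReal.ofReal_mul (by positivity)]
  congr 2
  ring

end Pool.Agent.MP_8c549f_pr.PK
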