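import Pool.Agent.MP_8c549f_pr.PK.Spec

/-!
One more level of a straight tube, upper bound.
-/

set_option autoImplicit false

namespace Pool.Agent.MP_8c549f_pr.PK

open MeasureTheory Filter Topology Real NastM
open scoped ENNReal NNReal

namespace MruM

variable {D : ℕ}

/-- the side edges of `e0` -/
noncomputable def sd (D : ℕ) : Finset (Edge D) :=
  Finset.univ.image fun q : Fin D × Bool => edge (e0 D) (q.1.succ, q.2)

theorem card_sd : (sd D).card = 2 * D := by
  rw [sd, Finset.card_image_of_injective, Finset.card_univ, Fintype.card_prod, Fintype.card_fin,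
    Fintype.card_bool, mul_comm]
  rintro ⟨i, a⟩ ⟨j, b⟩ h
  have h2 : i = j := by
    have := congrArg Prod.snd h
    cases a <;> cases b <;> simpa [edge] using this
  subst h2
  have h1 := congrFun (congrArg Prod.fst h) i.succ
  cases a <;> cases b <;> simp [edge] at h1 ⊢ <;> omega

theorem sd_spec {f : Edge D} (h : f ∈ sd D) : f.1 0 = 1 ∧ f.2 ≠ 0 := by
  obtain ⟨⟨i, a⟩, -, rfl⟩ := Finset.mem_image.1 h
  cases a <;> simp [edge, Fin.succ_ne_zero, (Fin.succ_ne_zero i).symm]

theorem card_ins : (insert (edge (e0 D) (fwd D)) (sd D)).card = 2 * D + 1 := by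
  rw [Finset.card_insert_of_notMem fun h => (sd_spec h).2 (by simp [edge, fwd]), card_sd]

theorem sum_e0 {ω : Cfg D} (h : ω ∈ Cl (sd D)) (g : ℤ → ℝ≥0∞) :
    (∑ s : Step D, if ω (edge (e0 D) s) = true then g (expo (e0 D) s) else 0) ≤
      g 1 + if ω (edge (e0 D) (fwd D)) = true then g 3 else 0 := by
  have a : ∀ (i : Fin D) (b : Bool), ω (edge (e0 D) (i.succ, b)) = false := fun i b =>
    h _ (Finset.mem_image.2 ⟨(i, b), Finset.mem_univ _, rfl⟩)
  have e1 : expo (e0 D) (0, true) = 3 := by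
    change 2 * e0 D 0 + vec (fwd D) 0 = 3
    simp
  have e2 : expo (e0 D) (0, false) = 1 := by
    change 2 * e0 D 0 + vec (bck D) 0 = 1
    simp
  rw [Fintype.sum_prod_type, Fin.sum_univ_succ]
  simp only [a, Bool.false_eq_true, if_false, Finset.sum_const_zero, add_zero]
  rw [Fintype.sum_bool, e1, e2, add_comm]
  refine add_le_add ?_ le_rfl
  split_ifs
  exacts [le_rfl, zero_le]

theorem gk_two (lam : ℝ) (m : ℤ) :
    gk 0 lam m = ENNReal.ofReal (exp (2 * lam)) * gk 0 lam (m - 2) := by
  unfold gk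
  rw [← ENNReal.ofReal_mul (exp_pos _).le]
  congr 1
  rw [pow_zero, pow_zero, one_mul, one_mul, ← exp_add]
  congr 1
  push_cast
  ring

theorem fwd_of {s : Step D} (h : vec s 0 = 1) : s = fwd D := by
  obtain ⟨i, b⟩ := s
  refine Fin.cases (fun h => ?_) (fun i h => ?_) i h
  · cases b
    · have e : vec (bck D) 0 = 1 := h
      simp at e
    · rfl
  · rw [vec_side_zero] at h
    omega

open Classical in
theorem point (lam : ℝ) {ω : Cfg D} {h : ℕ} (hR : Root ω 0)
    (h1 : ∀ z ∈ Bush ω 0, z 0 = 1 → z = e0 D) (hh : ∀ z ∈ Bush ω 0, z 0 ≤ h) :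
    pih (gk 0 lam) ω 0 ≤ 2 * gk 0 lam 1 *
        (Cl (insert (edge (e0 D) (fwd D)) (sd D))).indicator 1 ω +
      ENNReal.ofReal (exp (2 * lam) + 2) * ((Cl (sd D)).indicator 1 ω *
        (RH (e0 D) h).indicator (fun ω => pih (gk 0 lam) ω (e0 D)) ω) := by
  have m0 : e0 D ∈ Bush ω 0 := by simpa [Bush] using self_mem_Up ω 1 (e0 D)
  have st : ∀ z ∈ Bush ω 0, ∀ s, ω (edge z s) = true → 1 ≤ (z + vec s) 0 →
      z + vec s ∈ Bush ω 0 := fun z hz s hs k => Up_step (by simp) hz hs (by simpa using k)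
  have c : ω ∈ Cl (sd D) := by
    intro f hf
    obtain ⟨⟨i, a⟩, -, rfl⟩ := Finset.mem_image.1 hf
    by_contra k
    have l : (e0 D + vec ((i.succ, a) : Step D)) 0 = 1 := by simp [vec_side_zero]
    exact vec_ne_zero _ (by
      simpa using h1 _ (st _ m0 _ (by simpa using k) l.ge) l)
  have up : ∀ s, ω (edge (e0 D) s) = true → 1 ≤ (e0 D + vec s) 0 → s = fwd D := by
    intro s hs k
    by_contra n
    have b := vec_bounds s 0
    have b' : vec s 0 ≠ 1 := fun e => n (fwd_of e)
    have l : (e0 D + vec s) 0 = 1 := by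
      simp only [Pi.add_apply, e0_zero] at k ⊢
      omega
    exact vec_ne_zero _ (by simpa using h1 _ (st _ m0 _ hs k) l)
  have s0 := sum_e0 c (gk 0 lam)
  by_cases o : ω (edge (e0 D) (fwd D)) = true
  · refine le_trans ?_ le_add_self
    rw [if_pos o] at s0
    have b1 : Bush ω (e0 D) ⊆ Bush ω 0 := Up_subset
      (by simpa [vec_fwd_e0] using st _ m0 _ o (by simp)) fun y hy s _ hs _ k =>
        st y hy s hs (by simp only [e0_zero] at k; omega)
    have b2 : Bush ω 0 ⊆ {e0 D} ∪ Bush ω (e0 D) := by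
      refine Up_subset (Or.inl (by simp)) fun y hy s hy' hs _ k => ?_
      have k' : 1 ≤ (y + vec s) 0 := by simpa using k
      rcases hy with rfl | hy
      · rw [up s hs k', vec_fwd_e0]
        exact Or.inr (self_mem_Up _ _ _)
      · rcases k'.eq_or_lt with e | e
        · exact Or.inl (h1 _ (st y hy' s hs k') e.symm)
        · exact Or.inr (Up_step (by simp) hy hs (by simp only [e0_zero]; omega))
    have r : ω ∈ RH (e0 D) h := by
      refine ⟨⟨o, hR.2.1.subset b1, fun z hz l k => ?_⟩, fun z hz => ?_⟩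
      · have l' : (z + vec (bck D)) 0 = 1 := by
          simp only [Pi.add_apply, e0_zero, vec_bck_zero] at l ⊢
          omega
        have := h1 _ (st z (b1 hz) _ k l'.ge) l'
        rw [vec_bck_e0] at this
        exact add_neg_eq_iff_eq_add.1 this
      · have := hh z (b1 hz)
        simp only [e0_zero]
        omega
    rw [Set.indicator_of_mem c, Set.indicator_of_mem r, Pi.one_apply, one_mul]
    refine (pih_le (T := ∅) (G := gk 0 lam 1) (fun z => (if z = e0 D then gk 0 lam 1 + gk 0 lam 3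
      else 0) + ENNReal.ofReal (exp (2 * lam)) * (Bush ω (e0 D)).indicator (fun z => ∑ s : Step D,
        if ω (edge z s) = true then gk 0 lam (expo z s - 2 * e0 D 0) else 0) z) le_rfl
      fun z hz => Or.inr ?_).trans ?_
    · rcases b2 hz with rfl | k
      · rw [if_pos rfl]
        exact s0.trans le_self_add
      · refine le_trans (le_of_eq ?_) le_add_self
        rw [Set.indicator_of_mem k, Finset.mul_sum]
        refine Finset.sum_congr rfl fun s _ => ?_
        split_ifs
        · rw [gk_two]; simp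
        · rw [mul_zero]
    · have g1 : gk 0 lam 1 ≤ pih (gk 0 lam) ω (e0 D) := le_self_add
      simp only [Finset.card_empty, mul_zero, add_zero, Nat.cast_one, one_mul]
      rw [ENNReal.tsum_add, tsum_ite_eq, ENNReal.tsum_mul_left, gk_two lam 3,
        ENNReal.ofReal_add (exp_pos _).le (by norm_num), add_mul, ENNReal.ofReal_ofNat,
        two_mul (pih _ _ _), add_comm (_ * pih _ _ _), add_assoc, ← mul_add, ← add_assoc]
      exact add_le_add (add_le_add g1 g1) le_rfl
  · refine le_trans ?_ le_self_add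
    rw [if_neg o, add_zero] at s0
    have c' : ω ∈ Cl (insert (edge (e0 D) (fwd D)) (sd D)) := fun f hf =>
      (Finset.mem_insert.1 hf).elim (fun e => by simpa [e] using o) (c f)
    have b : Bush ω 0 ⊆ {e0 D} := Up_subset (by simp) fun y hy s _ hs _ k => by
      obtain rfl : y = e0 D := hy
      exact (o (up s hs (by simpa using k) ▸ hs)).elim
    rw [Set.indicator_of_mem c', Pi.one_apply, mul_one]
    refine (pih_le (T := ∅) (G := gk 0 lam 1) (fun z => if z = e0 D then gk 0 lam 1 else 0) le_rfl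
      fun z hz => Or.inr ?_).trans (le_of_eq ?_)
    · obtain rfl : z = e0 D := b hz
      rw [if_pos rfl]
      exact s0
    · rw [tsum_ite_eq, two_mul (gk 0 lam 1)]
      simp

theorem int_A {p : ℝ} (hD : 1 ≤ D) (h0 : 0 ≤ p) (h1 : p ≤ 1) (g : ℤ → ℝ≥0∞) (h : ℕ) :
    ∫⁻ ω, (Cl (sd D)).indicator 1 ω * (RH (e0 D) h).indicator (fun ω => pih g ω (e0 D)) ω
      ∂perc D p ≤ ENNReal.ofReal ((1 - p) ^ (2 * D)) * MB D g p h := by
  have m1 : Measurable ((Cl (sd D)).indicator (1 : Cfg D → ℝ≥0∞)) :=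
    measurable_one.indicator (meas_Cl _)
  have m2 := ((meas D 0).2.2.2.1 g (e0 D)).indicator (meas_RH meas (e0 D) h)
  rw [ind D p h0 h1 _ _ (sd D) {f | e0 D 0 + 1 ≤ f.1 0 ∨ (f.1 0 = e0 D 0 ∧ f.2 = 0)} m1 m2,
    lintegral_indicator_one (meas_Cl _), lintegral_indicator (meas_RH meas _ h), RH,
    mbeS D hD p h0 h1]
  · exact mul_le_mul' (perc_Cl h0 h1 card_sd.ge) le_rfl
  · intro ω ω' k
    have : ω ∈ Cl (sd D) ↔ ω' ∈ Cl (sd D) := iff_of_eq (dep_Cl (sd D) ω ω' k)
    by_cases c : ω ∈ Cl (sd D)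
    · rw [Set.indicator_of_mem c, Set.indicator_of_mem (this.1 c), Pi.one_apply, Pi.one_apply]
    · rw [Set.indicator_of_notMem c, Set.indicator_of_notMem (mt this.2 c)]
  · intro ω ω' k
    obtain ⟨k1, k2, k3⟩ := bush_congr (e0 D) k
    have : ω ∈ RH (e0 D) h ↔ ω' ∈ RH (e0 D) h := by simp only [RH, Set.mem_ofPred_eq, k1, k2]
    by_cases c : ω ∈ RH (e0 D) h
    · rw [Set.indicator_of_mem c, Set.indicator_of_mem (this.1 c), k3]
    · rw [Set.indicator_of_notMem c, Set.indicator_of_notMem (mt this.2 c)]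
  · refine Set.disjoint_left.2 fun f hf hf' => ?_
    obtain ⟨f1, f2⟩ := sd_spec hf
    rcases hf' with c | c
    · simp only [e0_zero] at c
      omega
    · exact f2 c.2

end MruM

open MruM

theorem mru : MRUStmt := by
  classical
  intro D hD p lam h0 h1 h
  set g := gk 0 lam with hg
  obtain ⟨-, r2, r3, -, -, -, r7⟩ := rt2S D (by omega) 0
  have mS : ∀ S : Finset (V D), MeasurableSet
      {ω : Cfg D | (ht (e0 D) S ≤ h ∧ NuLe 3 (exc S) 0) ∧ RootS ω 0 S} := fun S =>
    (MeasurableSet.const _).inter ((r3 S).measurableSet (Finset.finite_toSet _))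
  have e1 : MB D g p h ≤ MBad D g p h 3 0 + ∫⁻ ω in ⋃ S : Finset (V D),
      {ω : Cfg D | (ht (e0 D) S ≤ h ∧ NuLe 3 (exc S) 0) ∧ RootS ω 0 S}, pih g ω 0 ∂perc D p := by
    rw [lintegral_iUnion mS fun S S' hne => Set.disjoint_left.2 fun ω a b =>
      hne (r2 ω S S' (by simpa using a.2) (by simpa using b.2)), MB, MBad, ← ENNReal.tsum_add]
    refine ENNReal.tsum_le_tsum fun S => ?_
    by_cases c : ht (e0 D) S ≤ h
    · rw [if_pos c]
      by_cases d : NuLe 3 (exc S) 0
      · refine le_trans (le_of_eq ?_) le_add_self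
        simp only [c, d, true_and, and_self]
        rfl
      · rw [if_pos ⟨c, d⟩]
        exact le_self_add
    · rw [if_neg c]
      exact zero_le
  refine e1.trans (add_le_add le_rfl ?_)
  refine ((setLIntegral_mono' (MeasurableSet.iUnion mS) fun ω hω => ?_).trans
    (setLIntegral_le_lintegral (f := fun ω => 2 * g 1 *
        (Cl (insert (edge (e0 D) (fwd D)) (sd D))).indicator 1 ω +
      ENNReal.ofReal (exp (2 * lam) + 2) * ((Cl (sd D)).indicator 1 ω *
        (RH (e0 D) h).indicator (fun ω => pih g ω (e0 D)) ω)) _)).trans ?_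
  · obtain ⟨S, ⟨s1, s2⟩, s3⟩ := Set.mem_iUnion.1 hω
    have sh : Shape (e0 D) S := by simpa using s3.2.1
    have x1 : exc S 1 = 0 := by
      have := s2 2
      simp only [ks, Finset.sum_range_succ, Finset.range_zero, Finset.sum_empty] at this
      norm_num at this
      omega
    have pr := (((profS D hD).2 S sh).2 0).1.2.2.1
    rw [tr_zero] at pr
    refine point lam s3.1 (fun z hz l => pr z (s3.2.2.1 hz) _ sh.1 (by simpa using l)
      (by simpa [l] using x1)) fun z hz => ?_
    simpa using (r7 ω S h (by simpa using s3)).1 s1 z hz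
  · have t : (2 : ℝ≥0∞) * g 1 = ENNReal.ofReal (2 * exp lam) := by
      rw [hg, gk, ENNReal.ofReal_mul (p := 2) (by norm_num), ENNReal.ofReal_ofNat]
      simp
    have hε : 0 ≤ 1 - p := by linarith
    rw [lintegral_add_left ((measurable_one.indicator (meas_Cl _)).const_mul _),
      lintegral_const_mul _ (measurable_one.indicator (meas_Cl _)),
      lintegral_indicator_one (meas_Cl _), lintegral_const_mul' _ _ ENNReal.ofReal_ne_top, mul_add, t]
    refine add_le_add ((mul_le_mul' le_rfl (perc_Cl h0 h1 card_ins.ge)).trans (le_of_eq ?_))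
      ((mul_le_mul' le_rfl (int_A (by omega) h0 h1 g h)).trans (le_of_eq ?_))
    · rw [← ENNReal.ofReal_mul (by positivity), ← ENNReal.ofReal_mul (by positivity)]
      congr 1
      ring
    · ring

end Pool.Agent.MP_8c549f_pr.PK
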