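import Pool.Agent.MP_8c549f_pr.PK.Spec

/-!
PROJECT PK: the mass of the irregular bushes, with the true orders of magnitude.
-/

set_option autoImplicit false

namespace Pool.Agent.MP_8c549f_pr.PK

open MeasureTheory Filter Topology Real
open scoped ENNReal NNReal

namespace NasM

open NastM

variable {D : ℕ}

theorem pw_le {p t : ℝ} (t0 : 0 ≤ t) (t1 : t ≤ 1) (t6 : t ^ 6 = 1 - p) {a b c : ℕ}
    (h : b + c ≤ 6 * a) : (1 - p) ^ a ≤ t ^ b * t ^ c := by
  rw [← t6, ← pow_mul, ← pow_add]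
  exact pow_le_pow_of_le_one t0 t1 h

theorem intA (hM : MEASStmt) (hE : MBEStmt) (hD : 1 ≤ D) {p lam t : ℝ} (h0 : 0 ≤ p) (h1 : p ≤ 1)
    (t0 : 0 ≤ t) (t1 : t ≤ 1) (t6 : t ^ 6 = 1 - p) (hw : (1 - p) ^ D * exp lam ≤ 2)
    (g : ℤ → ℝ≥0∞) (h n : ℕ) {e : ℕ} (he : 1 ≤ e) (T : Finset (V D)) (u : V D) :
    ∫⁻ ω, FA g lam h n e T u ω ∂perc D p ≤
      ENNReal.ofReal (cc D n e * 4 ^ n * t ^ e) * (ENNReal.ofReal (t ^ 3) * MB D g p h) := by
  unfold FA
  split_ifs with hs
  swap
  · simp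
  obtain ⟨s1, s2, s3, s4⟩ := hs
  have m1 : Measurable ((Cl (shA T u)).indicator (1 : Cfg D → ℝ≥0∞)) :=
    measurable_one.indicator (meas_Cl _)
  have m2 := ((hM D 0).2.2.2.1 g u).indicator (meas_RH hM u h)
  rw [lintegral_const_mul' _ _ ENNReal.ofReal_ne_top, ind D p h0 h1 _ _ (shA T u)
    {f | u 0 + 1 ≤ f.1 0 ∨ (f.1 0 = u 0 ∧ f.2 = 0)} m1 m2, lintegral_indicator_one (meas_Cl _),
    lintegral_indicator (meas_RH hM u h), RH, hE D hD p h0 h1, ← mul_assoc,
    ← mul_assoc _ (ENNReal.ofReal (t ^ 3))]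
  · refine mul_le_mul' ((mul_le_mul' le_rfl (perc_Cl h0 h1 s4)).trans ?_) le_rfl
    have := cc_nonneg D n e
    rw [← ENNReal.ofReal_mul (by positivity), ← ENNReal.ofReal_mul (by positivity)]
    refine ENNReal.ofReal_le_ofReal ?_
    have a := pow_bound (D := D) (by linarith) hw n
    have b := pw_le t0 t1 t6 (a := e) (b := e) (c := 3) (by omega)
    have c : 0 ≤ (1 - p) ^ e := pow_nonneg (by linarith) _
    calc _ = cc D n e * (exp (lam * (2 * n)) * (1 - p) ^ (2 * D * n)) * (1 - p) ^ e := by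
          rw [pow_add]; ring
      _ ≤ cc D n e * 4 ^ n * (t ^ e * t ^ 3) := by gcongr
      _ = _ := by ring
  · intro ω ω' k
    have : ω ∈ Cl (shA T u) ↔ ω' ∈ Cl (shA T u) := iff_of_eq (dep_Cl (shA T u) ω ω' k)
    by_cases c : ω ∈ Cl (shA T u)
    · rw [Set.indicator_of_mem c, Set.indicator_of_mem (this.1 c), Pi.one_apply, Pi.one_apply]
    · rw [Set.indicator_of_notMem c, Set.indicator_of_notMem (mt this.2 c)]
  · intro ω ω' k
    obtain ⟨k1, k2, k3⟩ := bush_congr u k
    have : ω ∈ RH u h ↔ ω' ∈ RH u h := by simp only [RH, Set.mem_ofPred_eq, k1, k2]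
    by_cases c : ω ∈ RH u h
    · rw [Set.indicator_of_mem c, Set.indicator_of_mem (this.1 c), k3]
    · rw [Set.indicator_of_notMem c, Set.indicator_of_notMem (mt this.2 c)]
  · refine Set.disjoint_left.2 fun f hf hf' => ?_
    obtain ⟨f1, f2⟩ := Finset.mem_erase.1 hf
    obtain ⟨f3, f4⟩ := Finset.mem_filter.1 (Finset.mem_of_mem_erase f2)
    have pos : (0 : ℤ) ≤ (Pi.single f.2 1 : V D) 0 := by
      rw [Pi.single_apply]; split_ifs <;> norm_num
    rcases hf' with c | ⟨c1, c2⟩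
    · rcases mem_near'.1 f3 with d | d <;> have := s2 _ d
      · omega
      · simp only [Pi.add_apply] at this
        omega
    · rcases mem_near'.1 f3 with d | d
      · exact f1 (Prod.ext (by simpa [edge, fwd] using s3 _ d (c1.trans s1))
          (by simpa [edge, fwd] using c2))
      · have := s2 _ d
        simp only [Pi.add_apply, c2, Pi.single_eq_same] at this
        omega

theorem intB (hD : 2 ≤ D) {p lam t : ℝ} (h0 : 0 ≤ p) (h1 : p ≤ 1) (t0 : 0 ≤ t) (t1 : t ≤ 1)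
    (t6 : t ^ 6 = 1 - p) (hw : (1 - p) ^ D * exp lam ≤ 2) (n e : ℕ) (T : Finset (V D)) :
    ∫⁻ ω, FB lam n e T ω ∂perc D p ≤
      ENNReal.ofReal (2 * cc D n e * 4 ^ n * t ^ e) * ENNReal.ofReal (t ^ 6 * exp (-lam)) := by
  unfold FB
  split_ifs with hs
  swap
  · simp
  have hc := cc_nonneg D n e
  rw [lintegral_const_mul _ (measurable_one.indicator (meas_Cl _)),
    lintegral_indicator_one (meas_Cl _)]
  refine (mul_le_mul' le_rfl (perc_Cl h0 h1 hs)).trans ?_
  rw [← ENNReal.ofReal_mul (by positivity), ← ENNReal.ofReal_mul (by positivity)]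
  refine ENNReal.ofReal_le_ofReal ?_
  have hε : 0 ≤ 1 - p := by linarith
  have a := pow_bound (D := D) hε hw n
  unfold tp
  split_ifs with ht
  · obtain ⟨j, hj⟩ : ∃ j, e + 1 = D + j := ⟨e + 1 - D, by omega⟩
    have b := pw_le t0 t1 t6 (a := j) (b := e) (c := 6) (by omega)
    have c : (1 - p) ^ D ≤ 2 * exp (-lam) := by
      rw [exp_neg, ← div_eq_mul_inv, le_div_iff₀ (exp_pos _)]; exact hw
    calc _ = cc D n e * (exp (lam * (2 * n)) * (1 - p) ^ (2 * D * n)) * (1 - p) ^ j *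
          (1 - p) ^ D := by
          rw [add_assoc, hj, pow_add, pow_add]; push_cast; ring
      _ ≤ cc D n e * 4 ^ n * (t ^ e * t ^ 6) * (2 * exp (-lam)) := by gcongr
      _ = _ := by ring
  · have b := pw_le t0 t1 t6 (a := e + 1) (b := e) (c := 6) (by omega)
    calc _ = cc D n e * (exp (lam * (2 * n)) * (1 - p) ^ (2 * D * n)) * (1 - p) ^ (e + 1) *
          (1 * exp (-lam)) := by
          rw [add_assoc, pow_add]; push_cast
          rw [mul_sub, mul_one, sub_eq_add_neg (lam * _), exp_add]; ring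
      _ ≤ cc D n e * 4 ^ n * (t ^ e * t ^ 6) * (2 * exp (-lam)) := by gcongr; norm_num
      _ = _ := by ring

end NasM

open NastM NasM in
theorem nas : NASStmt := by
  classical
  intro D hD Q hQ θ hθ
  have hM := meas
  obtain ⟨C, hA⟩ := ani D (by omega)
  choose F hF hF' using hA (e0 D)
  obtain ⟨K, hK1, hK⟩ := count_nat D C (Q + 2)
  have K1 : (1 : ℝ) ≤ K := by exact_mod_cast hK1
  have m0 : 0 < min 1 θ := lt_min one_pos hθ
  refine ⟨(min 1 θ / (2 * K)) ^ 6, by positivity, fun p lam h0 h1 hl hw h ν => ?_⟩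
  obtain ⟨t, t0, t6⟩ : ∃ t : ℝ, 0 ≤ t ∧ t ^ 6 = 1 - p :=
    ⟨(1 - p) ^ ((6 : ℕ) : ℝ)⁻¹, rpow_nonneg (by linarith) _,
      rpow_inv_natCast_pow (by linarith) (by norm_num)⟩
  have t2 : t * (2 * K) ≤ min 1 θ := (le_div_iff₀ (by positivity)).1
    ((pow_le_pow_iff_left₀ t0 (by positivity) (by norm_num : 6 ≠ 0)).1 (by linarith))
  have hs : K * t ≤ 1 / 2 := by linarith [min_le_left 1 θ]
  have hs' : 2 * (K * t) ≤ θ := by linarith [min_le_right 1 θ]
  have t1 : t ≤ 1 := by nlinarith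
  have hp : 0 ≤ p := by linarith [pow_le_one₀ (n := 6) t0 t1]
  have hk : 0 ≤ 2 := Nat.zero_le 2
  rw [show √(1 - p) = t ^ 3 by rw [← t6, show 6 = 3 * 2 from rfl, pow_mul, sqrt_sq (by positivity)],
    show (1 - p) * exp (-lam) = t ^ 6 * exp (-lam) by rw [t6]]
  set g := gk 0 lam with hg
  set X := ENNReal.ofReal (t ^ 3) * MB D g p h + ENNReal.ofReal (t ^ 6 * exp (-lam)) with hX
  set G : ℕ → Cfg D → ℝ≥0∞ := fun e ω => ∑ n ∈ Finset.range ((Q + 2) * e + 1),
    ∑ T ∈ (F (2 * D * n + e + 1)).filter (fun T => T.card ≤ n * (e + 1)),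
      (∑ u ∈ T, FA g lam h n e T u ω + FB lam n e T ω) with hG
  have mT : ∀ n e (T : Finset (V D)),
      Measurable fun ω => ∑ u ∈ T, FA g lam h n e T u ω + FB lam n e T ω := fun n e T =>
    (Finset.measurable_sum _ fun u _ => meas_FA hM g lam h n e T u).add (meas_FB lam n e T)
  have mG : ∀ e, Measurable (G e) := fun e =>
    Finset.measurable_sum _ fun n _ => Finset.measurable_sum _ fun T _ => mT n e T
  have iG : ∀ e, 1 ≤ e → ∫⁻ ω, G e ω ∂perc D p ≤ ENNReal.ofReal ((K * t) ^ e) * X := by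
    intro e he
    have b : ∀ n ∈ Finset.range ((Q + 2) * e + 1), ∫⁻ ω, ∑ T ∈ (F (2 * D * n + e + 1)).filter
        (fun T => T.card ≤ n * (e + 1)), (∑ u ∈ T, FA g lam h n e T u ω + FB lam n e T ω)
          ∂perc D p ≤
        ENNReal.ofReal ((K * t) ^ e / ((Q + 2) * e + 1 : ℕ)) * X := by
      intro n hn
      have hc := cc_nonneg D n e
      rw [lintegral_finsetSum _ fun T _ => mT n e T]
      refine (Finset.sum_le_card_nsmul _ _ (ENNReal.ofReal (((n * (e + 1) + 2 : ℕ) : ℝ) *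
        (cc D n e * 4 ^ n * t ^ e)) * X) fun T hT => ?_).trans ?_
      · have hT' := (Finset.mem_filter.1 hT).2
        rw [lintegral_add_right _ (meas_FB lam n e T),
          lintegral_finsetSum _ fun u _ => meas_FA hM g lam h n e T u, hX, mul_add]
        refine add_le_add ((Finset.sum_le_card_nsmul _ _ _ fun u _ =>
          intA hM mbeS (by omega) hp h1 t0 t1 t6 hw g h n he T u).trans ?_)
          ((intB hD hp h1 t0 t1 t6 hw n e T).trans ?_)
        · rw [nsmul_eq_mul, ← mul_assoc, ← ENNReal.ofReal_natCast,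
            ← ENNReal.ofReal_mul (Nat.cast_nonneg _)]
          refine mul_le_mul' (ENNReal.ofReal_le_ofReal ?_) le_rfl
          gcongr
          exact hT'.trans (Nat.le_add_right _ _)
        · refine mul_le_mul' (ENNReal.ofReal_le_ofReal ?_) le_rfl
          rw [mul_assoc 2, mul_assoc 2]
          gcongr
          exact_mod_cast Nat.le_add_left _ _
      · rw [nsmul_eq_mul, ← mul_assoc, ← ENNReal.ofReal_natCast,
          ← ENNReal.ofReal_mul (Nat.cast_nonneg _)]
        refine mul_le_mul' (ENNReal.ofReal_le_ofReal ?_) le_rfl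
        have c1 : (((F (2 * D * n + e + 1)).filter (fun T => T.card ≤ n * (e + 1))).card : ℝ) ≤
            (C ^ (2 * D * n + e + 1) : ℕ) := by
          exact_mod_cast (Finset.card_filter_le _ _).trans (hF _)
        have c2 := (Nat.cast_le (α := ℝ)).2 (hK n e he (Nat.lt_succ_iff.1 (Finset.mem_range.1 hn)))
        rw [le_div_iff₀ (by positivity), mul_pow, ← Nat.cast_pow]
        refine le_trans ?_ (mul_le_mul_of_nonneg_right c2 (by positivity))
        refine (mul_le_mul_of_nonneg_right (mul_le_mul_of_nonneg_right c1 (by positivity))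
          (by positivity)).trans (le_of_eq ?_)
        unfold cc
        push_cast
        ring
    rw [hG, lintegral_finsetSum _ fun n _ => Finset.measurable_sum _ fun T _ => mT n e T]
    refine (Finset.sum_le_card_nsmul _ _ _ b).trans (le_of_eq ?_)
    rw [Finset.card_range, nsmul_eq_mul, ← mul_assoc, ← ENNReal.ofReal_natCast,
      ← ENNReal.ofReal_mul (Nat.cast_nonneg _), mul_div_cancel₀ _ (by positivity)]
  obtain ⟨-, r2, r3, -⟩ := rt2S D (by omega) 0
  have mS : ∀ S : Finset (V D), MeasurableSet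
      {ω : Cfg D | (ht (e0 D) S ≤ h ∧ ¬ NuLe Q (exc S) ν) ∧ RootS ω 0 S} := fun S =>
    (MeasurableSet.const _).inter ((r3 S).measurableSet (Finset.finite_toSet _))
  have e1 : MBad D g p h Q ν = ∫⁻ ω in ⋃ S : Finset (V D),
      {ω : Cfg D | (ht (e0 D) S ≤ h ∧ ¬ NuLe Q (exc S) ν) ∧ RootS ω 0 S}, pih g ω 0 ∂perc D p := by
    rw [lintegral_iUnion mS fun S S' hne => Set.disjoint_left.2 fun ω a b =>
      hne (r2 ω S S' (by simpa using a.2) (by simpa using b.2))]
    refine tsum_congr fun S => ?_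
    split_ifs with c
    · simp only [c, not_false_eq_true, true_and, and_self]
      rfl
    · simp [c]
  have pt : ∀ ω ∈ ⋃ S : Finset (V D),
      {ω : Cfg D | (ht (e0 D) S ≤ h ∧ ¬ NuLe Q (exc S) ν) ∧ RootS ω 0 S},
      pih g ω 0 ≤ ∑' j, G (ν + 1 + j) ω := by
    intro ω hω
    obtain ⟨S, ⟨s1, s2⟩, s3⟩ := Set.mem_iUnion.1 hω
    obtain ⟨T, n, e, t1, t2, t3, t4, t5, t6, t7, t8⟩ := cutS D hD Q ν hQ ω S s3 s2
    obtain ⟨j, rfl⟩ := Nat.exists_eq_add_of_le t2
    refine le_trans ?_ (ENNReal.le_tsum j)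
    refine le_trans ?_ (Finset.single_le_sum (f := fun n =>
      ∑ T ∈ (F (2 * D * n + (ν + 1 + j) + 1)).filter (fun T => T.card ≤ n * (ν + 1 + j + 1)),
        (∑ u ∈ T, FA g lam h n (ν + 1 + j) T u ω + FB lam n (ν + 1 + j) T ω))
      (fun _ _ => zero_le) (Finset.mem_range.2 (Nat.lt_succ_of_le t4)))
    refine le_trans ?_ (Finset.single_le_sum (f := fun T => ∑ u ∈ T,
      FA g lam h n (ν + 1 + j) T u ω + FB lam n (ν + 1 + j) T ω) (fun _ _ => zero_le)
      (Finset.mem_filter.2 ⟨hF' _ T t1 t7, t6⟩))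
    rcases t8 with ⟨u, u1, u2, u3, u4, u5, u6, u7, u8⟩ | ⟨v1, v2, v3, v4⟩
    · refine le_trans ?_ le_self_add
      refine le_trans ?_ (Finset.single_le_sum (f := fun u => FA g lam h n (ν + 1 + j) T u ω)
        (fun _ _ => zero_le) u1)
      have hh := ((rt2S D (by omega) 0).2.2.2.2.2.2 ω S h (by simpa using s3)).1 s1
      have : ω ∈ RH u h := ⟨u3, fun z hz => by
        have := hh z (u5 hz)
        simp only [Pi.zero_apply] at this
        omega⟩
      rw [FA, if_pos ⟨u2, t5, u6, u8⟩, Set.indicator_of_mem this,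
        Set.indicator_of_mem (show ω ∈ Cl (shA T u) from u7), Pi.one_apply, one_mul]
      exact pih_A hk hl t6 t5 u2 u4
    · refine le_trans ?_ le_add_self
      rw [FB, if_pos (show _ ≤ (shB T).card from v3),
        Set.indicator_of_mem (show ω ∈ Cl (shB T) from v2), Pi.one_apply, mul_one]
      exact pih_B hk hl s3.1 t3 t6 t5 v1 v4
  have s0 : 0 ≤ K * t := by positivity
  calc MBad D g p h Q ν ≤ ∫⁻ ω, ∑' j, G (ν + 1 + j) ω ∂perc D p := by
        rw [e1]
        exact (setLIntegral_mono' (MeasurableSet.iUnion mS) pt).trans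
          (setLIntegral_le_lintegral _ _)
    _ = ∑' j, ∫⁻ ω, G (ν + 1 + j) ω ∂perc D p := lintegral_tsum fun j => (mG _).aemeasurable
    _ ≤ ∑' j : ℕ, ENNReal.ofReal ((K * t) ^ (ν + 1) * (1 / 2) ^ j) * X :=
        ENNReal.tsum_le_tsum fun j => (iG _ (by omega)).trans (mul_le_mul'
          (ENNReal.ofReal_le_ofReal (by rw [pow_add]; gcongr)) le_rfl)
    _ ≤ _ := by
        rw [ENNReal.tsum_mul_right, ← ENNReal.ofReal_tsum_of_nonneg (fun j => by positivity)
          (summable_geometric_two.mul_left _), tsum_mul_left, tsum_geometric_two]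
        refine mul_le_mul' (ENNReal.ofReal_le_ofReal ?_) le_rfl
        refine le_trans ?_ (pow_le_pow_left₀ (by positivity) hs' _)
        rw [mul_pow 2, mul_comm]
        gcongr
        exact le_self_pow₀ (by norm_num) (by omega)

end Pool.Agent.MP_8c549f_pr.PK
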