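import Pool.Agent.MP_8c549f_pr.PK.Spec

/-!
PROJECT PK, row REG: the regular part of the inverse speed follows the full lattice.
-/

set_option autoImplicit false

namespace Pool.Agent.MP_8c549f_pr.PK

open MeasureTheory Filter Topology Real
open scoped ENNReal NNReal

namespace RegM

theorem exp_lip {α x y : ℝ} (hx : α ≤ x) (hy : α ≤ y) :
    |exp (-y) - exp (-x)| ≤ exp (-α) * |y - x| := by
  have key : ∀ {x y : ℝ}, α ≤ x → x ≤ y → |exp (-y) - exp (-x)| ≤ exp (-α) * |y - x| := by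
    intro x y hx hxy
    have h1 : exp (-y) ≤ exp (-x) := exp_le_exp.2 (by linarith)
    have h2 : exp (-x) ≤ exp (-α) := exp_le_exp.2 (by linarith)
    have h3 : exp (-y) = exp (-x) * exp (-(y - x)) := by rw [← exp_add]; ring_nf
    have h4 := add_one_le_exp (-(y - x))
    have h5 := mul_le_mul_of_nonneg_left h4 (exp_pos (-x)).le
    have h6 := mul_le_mul_of_nonneg_right h2 (sub_nonneg.2 hxy)
    rw [abs_of_nonpos (by linarith), abs_of_nonneg (sub_nonneg.2 hxy)]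
    linarith
  rcases le_total x y with e | e
  · exact key hx e
  · rw [abs_sub_comm, abs_sub_comm y]; exact key hy e

theorem half {x : ℝ} (hx : 1 ≤ x) : exp (-x) ≤ 1 / 2 := by
  have h1 := add_one_le_exp x
  have h2 : exp (-x) * exp x = 1 := by rw [← exp_add]; simp
  have h3 := exp_pos (-x)
  nlinarith

theorem den_pos {x : ℝ} (hx : 1 ≤ x) : 0 < exp x - exp (-x) :=
  sub_pos.2 (exp_lt_exp.2 (by linarith))

theorem T0_eq (D : ℕ) {x : ℝ} (hx : 1 ≤ x) :
    T0 D x = (1 + exp (-x) ^ 2 + 2 * D * exp (-x)) / (1 - exp (-x) ^ 2) := by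
  have h1 := half hx
  have h2 := exp_pos (-x)
  have h3 : exp (-x) * exp x = 1 := by rw [← exp_add]; simp
  have h4 : 0 < 1 - exp (-x) ^ 2 := by nlinarith
  rw [T0, Zf, div_eq_div_iff (den_pos hx).ne' h4.ne']
  linear_combination (-2 * exp (-x) - 2 * D) * h3

theorem T0_bd (D : ℕ) {x : ℝ} (hx : 1 ≤ x) : |T0 D x| ≤ 5 * D + 4 := by
  have h1 := half hx
  have h2 := exp_pos (-x)
  have h4 : 3 / 4 ≤ 1 - exp (-x) ^ 2 := by nlinarith
  have d0 : (0 : ℝ) ≤ D := Nat.cast_nonneg D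
  rw [T0_eq D hx, abs_of_nonneg (div_nonneg (by positivity) (by linarith)),
    div_le_iff₀ (by linarith)]
  nlinarith [mul_le_mul_of_nonneg_left h1 d0, mul_le_mul_of_nonneg_left h4 d0]

theorem T0_lip (D : ℕ) {α x y : ℝ} (hα : 1 ≤ α) (hx : α ≤ x) (hy : α ≤ y) :
    |T0 D y - T0 D x| ≤ (5 * D + 4) * (exp (-α) * |y - x|) := by
  have e := exp_lip hx hy
  have h1 := half (hα.trans hx)
  have h2 := exp_pos (-x)
  have k1 := half (hα.trans hy)
  have k2 := exp_pos (-y)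
  rw [T0_eq D (hα.trans hx), T0_eq D (hα.trans hy)]
  generalize exp (-x) = w at *
  generalize exp (-y) = u at *
  have d0 : (0 : ℝ) ≤ D := Nat.cast_nonneg D
  have h4 : 3 / 4 ≤ 1 - w ^ 2 := by nlinarith
  have k4 : 3 / 4 ≤ 1 - u ^ 2 := by nlinarith
  have h5 : 9 / 16 ≤ (1 - u ^ 2) * (1 - w ^ 2) := by nlinarith
  have h6 : u * w ≤ 1 / 4 := by nlinarith
  have h7 : 0 < u * w := by positivity
  have e1 : (1 + u ^ 2 + 2 * D * u) / (1 - u ^ 2) - (1 + w ^ 2 + 2 * D * w) / (1 - w ^ 2) =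
      (2 * (u + w) + 2 * D * (1 + u * w)) / ((1 - u ^ 2) * (1 - w ^ 2)) * (u - w) := by
    have a : 1 - u ^ 2 ≠ 0 := by linarith
    have b : 1 - w ^ 2 ≠ 0 := by linarith
    field_simp
    ring
  rw [e1, abs_mul, abs_of_nonneg (div_nonneg (by positivity) (by linarith))]
  refine mul_le_mul ?_ e (abs_nonneg _) (by positivity)
  rw [div_le_iff₀ (by linarith)]
  nlinarith [mul_le_mul_of_nonneg_left h6 d0, mul_le_mul_of_nonneg_left h5 d0]

theorem core {A A' B B' T T' b b' z K C δ : ℝ} (z0 : 0 ≤ z) (K0 : 0 ≤ K) (C0 : 0 ≤ C) (δ0 : 0 ≤ δ)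
    (hA : |A| ≤ z) (hB : |B| ≤ z) (hT : |T| ≤ K) (hT' : |T'| ≤ K) (hb : 1 / 4 ≤ b)
    (hb' : 1 / 4 ≤ b') (dA : |A' - A| ≤ z * δ) (dB : |B' - B| ≤ z * δ) (dT : |T' - T| ≤ K * δ)
    (db : |b' - b| ≤ C * δ) :
    |(A' - T' * B') / b' - (A - T * B) / b| ≤ (4 * (1 + 2 * K) + 16 * (1 + K) * C) * z * δ := by
  have p : 0 < b := by linarith
  have p' : 0 < b' := by linarith
  have n1 : |A - T * B| ≤ (1 + K) * z := by
    refine (abs_sub _ _).trans ?_
    rw [abs_mul]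
    linarith [mul_le_mul hT hB (abs_nonneg _) K0]
  have n2 : |(A' - T' * B') - (A - T * B)| ≤ (1 + 2 * K) * z * δ := by
    have e : (A' - T' * B') - (A - T * B) = (A' - A) - (T' * (B' - B) + (T' - T) * B) := by ring
    rw [e]
    refine (abs_sub _ _).trans ?_
    have := abs_add_le (T' * (B' - B)) ((T' - T) * B)
    rw [abs_mul, abs_mul] at this
    linarith [mul_le_mul hT' dB (abs_nonneg _) K0,
      mul_le_mul dT hB (abs_nonneg _) (mul_nonneg K0 δ0)]
  generalize A - T * B = N at *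
  generalize A' - T' * B' = N' at *
  have e : N' / b' - N / b = (N' - N) * (1 / b') - N * (b' - b) * (1 / b * (1 / b')) := by
    field_simp
    ring
  have i : 1 / b ≤ 4 := by rw [div_le_iff₀ p]; linarith
  have i' : 1 / b' ≤ 4 := by rw [div_le_iff₀ p']; linarith
  have j : 1 / b * (1 / b') ≤ 4 * 4 := mul_le_mul i i' (by positivity) (by norm_num)
  rw [e]
  refine (abs_sub _ _).trans ?_
  rw [abs_mul, abs_mul, abs_mul, abs_of_pos (show 0 < 1 / b' by positivity),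
    abs_of_pos (show 0 < 1 / b * (1 / b') by positivity)]
  have m1 := mul_le_mul n2 i' (by positivity) (by positivity)
  have m2 := mul_le_mul (mul_le_mul n1 db (abs_nonneg _) (by positivity)) j (by positivity)
    (by positivity)
  linarith

end RegM

open RegM in
theorem regS (_h : BONEStmt) : REGStmt := by
  intro D hD ζ ζ0
  obtain ⟨C, C1, hB⟩ := regbS D hD
  obtain ⟨x₀, h0⟩ := reg0S D (by omega)
  obtain ⟨M, hM⟩ : ∃ M : ℝ, M = 4 * (1 + 2 * (5 * D + 4)) + 16 * (1 + (5 * D + 4)) * (1 + C) :=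
    ⟨_, rfl⟩
  have M0 : 0 < M := by rw [hM]; positivity
  obtain ⟨z, z0, z1, z2⟩ : ∃ z : ℝ, 0 < z ∧ z ≤ 1 / 4 ∧ M * z * 2 ≤ ζ := by
    refine ⟨min (1 / 4) (ζ / (M * 2)), by positivity, min_le_left _ _, ?_⟩
    have := (le_div_iff₀ (by positivity)).1 (min_le_right (1 / 4) (ζ / (M * 2)))
    linarith
  obtain ⟨e1, he1, H1⟩ := regaS D hD z z0
  obtain ⟨e2, he2, H2⟩ := hB z z0
  obtain ⟨e3, he3, H3⟩ := win_mu hD (max 1 x₀)
  refine ⟨min e1 (min e2 e3), by positivity, fun p α β hp hw x hx y hy => ?_⟩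
  have q1 : 1 - e1 ≤ p := by linarith [min_le_left e1 (min e2 e3)]
  have q2 : 1 - e2 ≤ p := by linarith [(min_le_right e1 (min e2 e3)).trans (min_le_left e2 e3)]
  have q3 : 1 - e3 ≤ p := by linarith [(min_le_right e1 (min e2 e3)).trans (min_le_right e2 e3)]
  obtain ⟨a1, a2⟩ := H1 p α β q1 hw
  obtain ⟨b1, b2, b3⟩ := H2 p α β q2 hw
  have hα := hw.mem (x := α) ⟨le_rfl, hw.2.1⟩
  obtain ⟨μ, m1, -, -, m2, -⟩ := H3 p α q3 hw.1 hα.1 hα.2
  have α1 : 1 ≤ α := (le_max_left _ _).trans (m1.trans m2)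
  have α0 : x₀ ≤ α := (le_max_right _ _).trans (m1.trans m2)
  have val : ∀ t ∈ Set.Icc α β, 1 / 4 ≤ (BT D p t).toReal ∧
      (AReg D p t).toReal / (BT D p t).toReal - T0 D t =
        (((AReg D p t).toReal - (AT D 1 t).toReal) -
          T0 D t * ((BT D p t).toReal - (BT D 1 t).toReal)) / (BT D p t).toReal := fun t ht => by
    obtain ⟨r1, r2⟩ := h0 t (α0.trans ht.1) (a1 t ht).2.1 (b1 t ht).2.1
    have r3 : 1 / 4 ≤ (BT D p t).toReal := by linarith [(abs_le.1 (b1 t ht).2.2.2).1]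
    have r4 : (AT D 1 t).toReal = T0 D t * (BT D 1 t).toReal := by
      rw [T0, div_mul_eq_mul_div, eq_div_iff (den_pos (α1.trans ht.1)).ne', r2, mul_comm]
    have r5 : (BT D p t).toReal ≠ 0 := by linarith
    refine ⟨r3, ?_⟩
    rw [r4]
    field_simp
    ring
  refine ⟨(a1 x hx).1, ?_⟩
  have δ0 : 0 ≤ exp (-α) * |y - x| := by positivity
  have dA := BushM.ctl_abs a2 hx hy
  have dB := BushM.ctl_abs b2 hx hy
  have d0 := BushM.ctl_abs b3 hx hy
  rw [mul_assoc] at dA dB d0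
  have db : |(BT D p y).toReal - (BT D p x).toReal| ≤ (1 + C) * (exp (-α) * |y - x|) := by
    have k1 := abs_le.1 dB
    have k2 := abs_le.1 d0
    have k3 := mul_le_mul_of_nonneg_right (z1.trans (by norm_num : (1 : ℝ) / 4 ≤ 1)) δ0
    exact abs_le.2 ⟨by linarith [k1.1, k2.1], by linarith [k1.2, k2.2]⟩
  have main := core z0.le (by positivity) (by positivity) δ0 (a1 x hx).2.2 (b1 x hx).2.2.2
    (T0_bd D (α1.trans hx.1)) (T0_bd D (α1.trans hy.1)) (val x hx).1 (val y hy).1 dA dB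
    (T0_lip D α1 hx.1 hy.1) db
  rw [(val x hx).2, (val y hy).2]
  refine main.trans ?_
  rw [← hM]
  have E : exp (-α) ≤ 2 * (1 - p) ^ D := by
    have k : exp α * exp (-α) = 1 := by rw [← exp_add]; simp
    have := mul_le_mul_of_nonneg_right hα.1 (exp_pos (-α)).le
    rw [mul_assoc, k] at this
    linarith
  have P0 : 0 ≤ (1 - p) ^ D := pow_nonneg (by linarith [hw.1]) D
  calc M * z * (exp (-α) * |y - x|) ≤ M * z * (2 * (1 - p) ^ D * |y - x|) := by gcongr
    _ = M * z * 2 * ((1 - p) ^ D * |y - x|) := by ring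
    _ ≤ ζ * ((1 - p) ^ D * |y - x|) := by gcongr
    _ = _ := by ring

end Pool.Agent.MP_8c549f_pr.PK
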