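import Pool.Agent.MP_8c549f_pr.PK.Spec

/-! The largest speed is attained; its place to second order from the modules. -/

set_option autoImplicit false

namespace Pool.Agent.MP_8c549f_pr.PK

open MeasureTheory Filter Topology Real
open scoped ENNReal NNReal

/-- upper semicontinuity of the speed formula in the critical window -/
theorem usc (D : ℕ) (hD : 2 ≤ D) : ∃ e₀ : ℝ, 0 < e₀ ∧ ∀ p α β, 1 - e₀ ≤ p → Win D p α β →
    1 ≤ α ∧ UpperSemicontinuousOn (fun w => BR D p w / AR D p w) (Set.Icc α β) := by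
  have hD1 : 1 ≤ D := by omega
  obtain ⟨c, hc, hB⟩ := bushS D hD
  obtain ⟨C, hC1, hR⟩ := regbS D hD
  obtain ⟨x₁, h0⟩ := reg0S D hD1
  obtain ⟨e1, he1, hB⟩ := hB 1 one_pos
  obtain ⟨e2, he2, hR⟩ := hR 1 one_pos
  obtain ⟨e3, he3, hA⟩ := regaS D hD 1 one_pos
  obtain ⟨e4, he4, hS⟩ := splitS D hD1
  obtain ⟨e5, he5, hN⟩ := nice D hD1 1 one_pos
  obtain ⟨q₀, e6, hq, he6, hq0⟩ := q0S D hD1 1 one_pos
  obtain ⟨e7, he7, hO⟩ := oneS D hD1 1 one_pos
  obtain ⟨e8, he8, hW⟩ := win_mu hD (max 1 x₁)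
  refine ⟨min (min (min e1 e2) (min e3 e4)) (min (min e5 e6) (min e7 e8)), by positivity, ?_⟩
  intro p α β hp hw
  have k : ∀ {e : ℝ}, min (min (min e1 e2) (min e3 e4)) (min (min e5 e6) (min e7 e8)) ≤ e →
      1 - e ≤ p := fun h => by linarith
  have p1 := hw.1
  have hαβ := hw.2.1
  obtain ⟨μ, m1, -, p0, m2, -⟩ := hW p α (k (by simp)) p1 (hw.mem ⟨le_rfl, hαβ⟩).1
    (hw.mem ⟨le_rfl, hαβ⟩).2
  have a1 : 1 ≤ α := (le_max_left _ _).trans (m1.trans m2)
  have a3 : x₁ ≤ α := (le_max_right _ _).trans (m1.trans m2)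
  refine ⟨a1, ?_⟩
  replace hB := hB p α β (k (by simp)) hw
  obtain ⟨R1, R2, R3⟩ := hR p α β (k (by simp)) hw
  obtain ⟨A1, A2⟩ := hA p α β (k (by simp)) hw
  have hp0 : 0 ≤ p := by linarith
  have key : ∀ w ∈ Set.Icc α β, 0 < (BT D p w).toReal ∧ BT D p w ≤ AT D p w ∧
      BR D p w / AR D p w = (BT D p w).toReal / (AT D p w).toReal ∧
      AT D p w = AReg D p w + ⨆ h, ABu D p w h := fun w hw => by
    have w1 : 1 ≤ w := a1.trans hw.1
    obtain ⟨b1, b2, b3, b4⟩ := qrS D p w hp0 p1.le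
    have q1ne : q1 D p w ≠ 0 := fun h => by
      have := (b4 (hN p w (k (by simp)) p1.le w1).1).trans
        (add_le_add le_rfl (hq0 p w (k (by simp)) p1.le w1))
      rw [h, zero_add, ENNReal.one_le_ofReal] at this
      linarith
    have q1top : q1 D p w ≠ ∞ := ne_top_of_le_ne_top ENNReal.one_ne_top b3
    obtain ⟨-, o2, o3⟩ := hO p w (k (by simp)) p1.le w1
    obtain ⟨-, -, -, -, -, -, s1, s2⟩ := sump D p w hp0 p1.le
    have qp := ENNReal.toReal_pos q1ne q1top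
    refine ⟨ENNReal.toReal_pos ?_ (R1 w hw).1, ?_, ?_, hS p w (k (by simp)) p1 w1⟩
    · rw [← b2]
      exact mul_ne_zero (fun h => by simp [h, o2] at s2) q1ne
    · rw [← b1, ← b2]; exact mul_le_mul' s1 le_rfl
    · rw [← b1, ← b2, ENNReal.toReal_mul, ENNReal.toReal_mul, mul_div_mul_right _ _ qp.ne']
      rfl
  have cB : ContinuousOn (fun w => (BT D p w).toReal) (Set.Icc α β) :=
    (R2.continuousOn.add R3.continuousOn).congr fun w _ => by simp
  have pe : ∀ w ∈ Set.Icc α β, exp w - exp (-w) ≠ 0 := fun w hw =>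
    (sub_pos.2 (exp_lt_exp.2 (by linarith [hw.1]))).ne'
  have cA1 : ContinuousOn (fun w => (AT D 1 w).toReal) (Set.Icc α β) := by
    have c1 : ContinuousOn (fun w => (BT D 1 w).toReal * Zf D w / (exp w - exp (-w)))
        (Set.Icc α β) :=
      (R3.continuousOn.mul (by unfold Zf; fun_prop)).div (by fun_prop) pe
    refine c1.congr fun w hw => ?_
    rw [eq_div_iff (pe w hw)]
    exact (h0 w (a3.trans hw.1) (A1 w hw).2.1 (R1 w hw).2.1).2
  have cA : ContinuousOn (fun w => (AReg D p w).toReal) (Set.Icc α β) :=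
    (A2.continuousOn.add cA1).congr fun w _ => by simp
  intro x hx y hy
  obtain ⟨x1, x2, x3, x4⟩ := key x hx
  simp only [x3] at hy
  have y0 : 0 < y := lt_of_le_of_lt (by positivity) hy
  obtain ⟨h, hh⟩ : ∃ h, (BT D p x).toReal < y * ((AReg D p x).toReal + (ABu D p x h).toReal) := by
    by_contra hn
    push Not at hn
    have hle : AT D p x ≤ ENNReal.ofReal ((BT D p x).toReal / y) := by
      rw [x4, ENNReal.add_iSup]
      refine iSup_le fun h => ?_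
      rw [← ENNReal.ofReal_toReal (A1 x hx).1, ← ENNReal.ofReal_toReal ((hB h).1 x hx),
        ← ENNReal.ofReal_add ENNReal.toReal_nonneg ENNReal.toReal_nonneg]
      exact ENNReal.ofReal_le_ofReal ((le_div_iff₀' y0).2 (hn h))
    have ht : AT D p x ≠ ∞ := ne_top_of_le_ne_top ENNReal.ofReal_ne_top hle
    have xa : 0 < (AT D p x).toReal := x1.trans_le (ENNReal.toReal_mono ht x2)
    have h1 := ENNReal.toReal_le_of_le_ofReal (by positivity) hle
    rw [le_div_iff₀' y0] at h1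
    rw [div_lt_iff₀ xa] at hy
    linarith
  have ev : ∀ᶠ w in 𝓝[Set.Icc α β] x,
      (BT D p w).toReal < y * ((AReg D p w).toReal + (ABu D p w h).toReal) :=
    (cB x hx).eventually_lt (((cA.add (hB h).2.1).const_smul y) x hx) hh
  filter_upwards [ev, self_mem_nhdsWithin] with w h1 hw
  obtain ⟨w1, w2, w3, w4⟩ := key w hw
  rw [w3]
  by_cases ht : AT D p w = ∞
  · simpa [ht] using y0
  · have wa : 0 < (AT D p w).toReal := w1.trans_le (ENNReal.toReal_mono ht w2)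
    rw [div_lt_iff₀ wa]
    refine h1.trans_le (mul_le_mul_of_nonneg_left ?_ y0.le)
    rw [← ENNReal.toReal_add (A1 w hw).1 ((hB h).1 w hw)]
    refine ENNReal.toReal_mono ht ?_
    rw [w4]
    exact add_le_add le_rfl (le_iSup (fun h => ABu D p w h) h)

/-- the largest speed is attained, near the critical bias -/
theorem peak (D : ℕ) (hD : 2 ≤ D) (η : ℝ) (hη : 0 < η) : ∃ p₀ : ℝ, p₀ < 1 ∧
    ∀ p, p₀ < p → p < 1 → ∀ v : ℝ → ℝ, (∀ x, 0 < x → HasSpeed D p x (v x)) →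
      ∃ m, 0 < m ∧ |m - D * log (1 / (1 - p))| ≤ η ∧ ∀ x, 0 < x → v x ≤ v m := by
  have hD1 : 1 ≤ D := by omega
  obtain ⟨e1, he1, h1⟩ := usc D hD
  obtain ⟨e2, he2, h2⟩ := oneS D hD1 1 one_pos
  obtain ⟨p₁, hp₁, h3⟩ := maxStmt D hD1 (min η (1 / 4)) (by positivity)
  have he : 0 < min e1 e2 := by positivity
  refine ⟨max (max 0 p₁) (1 - min e1 e2), max_lt (max_lt one_pos hp₁) (by linarith), ?_⟩
  intro p hp hp1 v hv
  have hp0 : 0 < p := ((le_max_left _ _).trans (le_max_left _ _)).trans_lt hp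
  have hp3 : p₁ < p := ((le_max_right _ _).trans (le_max_left _ _)).trans_lt hp
  have hp2 := (le_max_right _ _).trans_lt hp
  have k : ∀ {e : ℝ}, min e1 e2 ≤ e → 1 - e ≤ p := fun h => by linarith
  have hε : 0 < 1 - p := by linarith
  obtain ⟨-, x₀, -, x1, -, x2⟩ := h3 p hp3 hp1 v hv
  set Λ := D * log (1 / (1 - p)) with hΛ
  set t := min η (1 / 4) with ht
  have t0 : 0 < t := by positivity
  have t1 : t ≤ 1 / 4 := min_le_right _ _
  have hw : Win D p (Λ - t) (Λ + t) := by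
    refine ⟨hp1, by linarith, by linarith, ?_, ?_⟩
    · rw [sub_eq_add_neg Λ, exp_Lam hε]
      linarith [add_one_le_exp (-t)]
    · rw [exp_Lam hε]
      have := add_one_le_exp (-(1 / 4 : ℝ))
      rw [exp_neg, le_inv_comm₀ (by norm_num) (exp_pos _)] at this
      linarith [exp_le_exp.2 t1]
  obtain ⟨a1, u⟩ := h1 p _ _ (k (by simp)) hw
  have sp : ∀ w, 1 ≤ w → v w = BR D p w / AR D p w := fun w hw => by
    obtain ⟨b1, b2, b3⟩ := h2 p w (k (by simp)) hp1.le hw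
    obtain ⟨t1, t2⟩ := transS D p w (v w) hp0 hp1.le (by linarith) b1 b2 b3 (hv w (by linarith))
    by_cases h : AA D p w = ∞
    · rw [t2 h, AR, h]; simp
    · exact t1 h
  obtain ⟨m, hm, hmax⟩ := u.exists_isMaxOn ⟨Λ, by constructor <;> linarith⟩ isCompact_Icc
  have inw : ∀ w, |w - Λ| ≤ t → v w ≤ v m := fun w h => by
    have hw : w ∈ Set.Icc (Λ - t) (Λ + t) := by
      constructor <;> linarith [(abs_le.1 h).1, (abs_le.1 h).2]
    rw [sp w (a1.trans hw.1), sp m (a1.trans hm.1)]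
    exact hmax hw
  refine ⟨m, by linarith [hm.1], (abs_le.2 ⟨by linarith [hm.1], by linarith [hm.2]⟩).trans
    (min_le_left η (1 / 4)), fun x hx => ?_⟩
  by_cases h : |x - Λ| ≤ t
  · exact inw x h
  · exact (x2 x hx (not_le.1 h)).le.trans (inw x₀ x1)

/-- the speed in the window, through the times spent inside and outside the bushes -/
theorem formula (D : ℕ) (hD : 2 ≤ D) : ∃ e₀ : ℝ, 0 < e₀ ∧ ∀ p w v, 1 - e₀ ≤ p → p < 1 →
    1 / 2 ≤ (1 - p) ^ D * exp w → (1 - p) ^ D * exp w ≤ 2 → HasSpeed D p w v →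
      v = (BT D p w).toReal / (AReg D p w + ⨆ h, ABu D p w h).toReal ∧
        BT D p w ≤ AReg D p w + ⨆ h, ABu D p w h := by
  have hD1 : 1 ≤ D := by omega
  obtain ⟨e4, he4, hS⟩ := splitS D hD1
  obtain ⟨e5, he5, hN⟩ := nice D hD1 1 one_pos
  obtain ⟨q₀, e6, hq, he6, hq0⟩ := q0S D hD1 1 one_pos
  obtain ⟨e7, he7, hO⟩ := oneS D hD1 1 one_pos
  obtain ⟨e8, he8, hW⟩ := win_mu hD 1
  refine ⟨min (min e4 e5) (min (min e6 e7) e8), by positivity, fun p w v hp p1 g1 g2 hv => ?_⟩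
  have k : ∀ {e : ℝ}, min (min e4 e5) (min (min e6 e7) e8) ≤ e → 1 - e ≤ p := fun h => by linarith
  obtain ⟨μ, m1, -, p0, m2, -⟩ := hW p w (k (by simp)) p1 g1 g2
  have w1 : 1 ≤ w := m1.trans m2
  have hp0 : 0 ≤ p := by linarith
  obtain ⟨b1, b2, b3, b4⟩ := qrS D p w hp0 p1.le
  have q1ne : q1 D p w ≠ 0 := fun h => by
    have := (b4 (hN p w (k (by simp)) p1.le w1).1).trans
      (add_le_add le_rfl (hq0 p w (k (by simp)) p1.le w1))
    rw [h, zero_add, ENNReal.one_le_ofReal] at this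
    linarith
  have q1top : q1 D p w ≠ ∞ := ne_top_of_le_ne_top ENNReal.one_ne_top b3
  obtain ⟨o1, o2, o3⟩ := hO p w (k (by simp)) p1.le w1
  obtain ⟨-, -, -, -, -, -, s1, -⟩ := sump D p w hp0 p1.le
  have qp := ENNReal.toReal_pos q1ne q1top
  obtain ⟨t1, t2⟩ := transS D p w v (by linarith) p1.le (by linarith) o1 o2 o3 hv
  rw [← hS p w (k (by simp)) p1 w1, ← b1, ← b2]
  refine ⟨?_, mul_le_mul' s1 le_rfl⟩
  rw [ENNReal.toReal_mul, ENNReal.toReal_mul, mul_div_mul_right _ _ qp.ne']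
  by_cases h : AA D p w = ∞
  · rw [t2 h, h]; simp
  · exact t1 h

theorem place_of (hB : BONEStmt) (hR : REGStmt) (hU : FUStmt) (hL : FLStmt) (hC : LOCStmt)
    (D : ℕ) (hD : 2 ≤ D) (η : ℝ) (hη : 0 < η) : ∃ p₀ : ℝ, p₀ < 1 ∧
    ∀ p : ℝ, p₀ < p → p < 1 → ∀ v : ℝ → ℝ, (∀ x, 0 < x → HasSpeed D p x (v x)) →
      (∃ m, 0 < m ∧ ∀ x, 0 < x → v x ≤ v m) ∧
      ∀ m, 0 < m → (∀ x, 0 < x → v x ≤ v m) →
        |m - (D * log (1 / (1 - p)) - √(1 - p) / (2 * D))| ≤ η * √(1 - p) := by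
  have hD1 : 1 ≤ D := by omega
  have D1 : (1 : ℝ) ≤ D := by exact_mod_cast hD1
  obtain ⟨ζ, r₀, hζ, hr₀, hC⟩ := hC D hD1 η hη
  obtain ⟨p1, a1, h1⟩ := peak D hD 1 one_pos
  obtain ⟨p2, a2, h2⟩ := maxStmt D hD1 (1 / 4) (by norm_num)
  obtain ⟨e1, he1, hB⟩ := hB D hD (min ζ (1 / 2)) (by positivity)
  obtain ⟨e2, he2, hR⟩ := hR D hD ζ hζ
  obtain ⟨e3, he3, hU⟩ := hU D hD ζ hζ
  obtain ⟨e4, he4, hL⟩ := hL D hD ζ hζ
  obtain ⟨e5, he5, hF⟩ := formula D hD
  obtain ⟨e6, he6, hW⟩ := win_mu hD 1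
  set e := min (min (min e1 e2) (min e3 e4)) (min (min e5 e6) (min (r₀ ^ 2) ((1 / 4) ^ 2))) with he
  have e0 : 0 < e := by positivity
  refine ⟨max (max p1 p2) (1 - e), max_lt (max_lt a1 a2) (by linarith), fun p hp hp1 v hv => ?_⟩
  simp only [max_lt_iff] at hp
  have k : ∀ {e' : ℝ}, e ≤ e' → 1 - e' ≤ p := fun h => by linarith [hp.2]
  obtain ⟨m₀, m0, -, m1⟩ := h1 p hp.1.1 hp1 v hv
  refine ⟨⟨m₀, m0, m1⟩, fun m hm hmax => ?_⟩
  have ε0 : 0 < 1 - p := by linarith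
  set Λ := D * log (1 / (1 - p)) with hΛ
  set r := √(1 - p) with hr
  have r0 : 0 < r := sqrt_pos.2 ε0
  have rr : r ^ 2 = 1 - p := sq_sqrt ε0.le
  have r1 : r ≤ r₀ := sqrt_le_iff.2 ⟨hr₀.le, by linarith [k (e' := r₀ ^ 2) (by simp [he])]⟩
  have r2 : r ≤ 1 / 4 :=
    sqrt_le_iff.2 ⟨by norm_num, by linarith [k (e' := (1 / 4) ^ 2) (by simp [he])]⟩
  have t0 : 0 < r / (2 * D) := by positivity
  have t1 : r / (2 * D) ≤ r := div_le_self r0.le (by linarith)
  obtain ⟨-, x₀, x0, -, -, x2⟩ := h2 p hp.1.2 hp1 v hv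
  have ms : |m - Λ| ≤ 1 / 4 := not_lt.1 fun h => (x2 m hm h).not_ge (hmax x₀ x0)
  have hw : Win D p (Λ - 1 / 4) (Λ + 1 / 4) := by
    refine ⟨hp1, by linarith, by linarith, ?_, ?_⟩
    · rw [sub_eq_add_neg Λ, exp_Lam ε0]
      linarith [add_one_le_exp (-(1 / 4 : ℝ))]
    · rw [exp_Lam ε0]
      have := add_one_le_exp (-(1 / 4 : ℝ))
      rw [exp_neg, le_inv_comm₀ (by norm_num) (exp_pos _)] at this
      linarith
  set y := Λ - r / (2 * D) with hy
  have my : y ∈ Set.Icc (Λ - 1 / 4) (Λ + 1 / 4) := by constructor <;> linarith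
  have mm : m ∈ Set.Icc (Λ - 1 / 4) (Λ + 1 / 4) := by
    constructor <;> linarith [(abs_le.1 ms).1, (abs_le.1 ms).2]
  obtain ⟨μ, n1, -, -, n2, -⟩ := hW p y (k (by simp [he])) hp1 (hw.mem my).1 (hw.mem my).2
  have y0 : 0 < y := by linarith
  have bt : ∀ w ∈ Set.Icc (Λ - 1 / 4) (Λ + 1 / 4), BT D p w ≠ ∞ ∧ 1 / 2 ≤ (BT D p w).toReal ∧
      |(BT D p w).toReal - 1| ≤ ζ := fun w hw' => by
    obtain ⟨b1, b2⟩ := hB p w (k (by simp [he])) hp1 (hw.mem hw').1 (hw.mem hw').2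
    have f := ne_top_of_le_ne_top ENNReal.ofReal_ne_top b2
    have c1 := (ENNReal.ofReal_le_iff_le_toReal f).1 b1
    have c2 := ENNReal.toReal_le_of_le_ofReal (by positivity) b2
    have d1 := min_le_left ζ (1 / 2)
    have d2 := min_le_right ζ (1 / 2)
    exact ⟨f, by linarith, abs_le.2 ⟨by linarith, by linarith⟩⟩
  obtain ⟨by1, by2, by3⟩ := bt y my
  obtain ⟨bm1, bm2, bm3⟩ := bt m mm
  obtain ⟨fy, gy⟩ := hF p y (v y) (k (by simp [he])) hp1 (hw.mem my).1 (hw.mem my).2 (hv y y0)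
  obtain ⟨fm, gm⟩ := hF p m (v m) (k (by simp [he])) hp1 (hw.mem mm).1 (hw.mem mm).2 (hv m hm)
  obtain ⟨ay, -⟩ := hR p _ _ (k (by simp [he])) hw y my m mm
  obtain ⟨am, lip⟩ := hR p _ _ (k (by simp [he])) hw m mm y my
  have uy : ⨆ h, ABu D p y h ≤ ENNReal.ofReal ((1 + ζ) * (r * (1 - p) ^ D)) :=
    iSup_le fun h => hU p y (k (by simp [he])) hp1 hy h
  have uy' := ne_top_of_le_ne_top ENNReal.ofReal_ne_top uy
  have ty : 1 / 2 ≤ (AReg D p y + ⨆ h, ABu D p y h).toReal :=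
    by2.trans (ENNReal.toReal_mono (ENNReal.add_ne_top.2 ⟨ay, uy'⟩) gy)
  have vy : 0 < v y := by rw [fy]; positivity
  have cmp := hmax y y0
  have um : ⨆ h, ABu D p m h ≠ ∞ := fun h => by
    rw [h] at fm
    simp only [add_top, ENNReal.toReal_top, div_zero] at fm
    linarith
  have tm : 1 / 2 ≤ (AReg D p m + ⨆ h, ABu D p m h).toReal :=
    bm2.trans (ENNReal.toReal_mono (ENNReal.add_ne_top.2 ⟨am, um⟩) gm)
  rw [fy, fm, div_le_div_iff₀ (by linarith) (by linarith), ENNReal.toReal_add ay uy',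
    ENNReal.toReal_add am um] at cmp
  have es : Λ - (Λ - m) = m := by ring
  have fl := hL p (Λ - m) (⨆ h, ABu D p m h).toReal (k (by simp [he])) hp1
    (by rwa [abs_sub_comm]) ENNReal.toReal_nonneg fun h => by
      rw [ENNReal.ofReal_toReal um, ← hΛ, es]
      exact le_iSup (fun h => ABu D p m h) h
  have key := hC r (Λ - m) Λ (⨆ h, ABu D p m h).toReal (⨆ h, ABu D p y h).toReal
    (BT D p m).toReal (BT D p y).toReal
    (((AReg D p y).toReal / (BT D p y).toReal - T0 D y) -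
      ((AReg D p m).toReal / (BT D p m).toReal - T0 D m)) r0 r1
    (by
      have := exp_Lam (D := D) ε0 0
      rw [add_zero, exp_zero, ← hΛ] at this
      rw [rr, exp_neg]
      exact (eq_inv_of_mul_eq_one_left this).symm)
    (by rwa [abs_sub_comm]) ENNReal.toReal_nonneg
    (by rw [rr, sub_sub_cancel]; exact fl)
    (by rw [rr]; exact ENNReal.toReal_le_of_le_ofReal (by positivity) uy) bm3 by3
    (by rw [rr, show Λ - m - r / (2 * D) = y - m by rw [hy]; ring]; exact lip)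
    (by
      rw [es, ← hy]
      have : ((AReg D p m).toReal + (⨆ h, ABu D p m h).toReal) / (BT D p m).toReal ≤
          ((AReg D p y).toReal + (⨆ h, ABu D p y h).toReal) / (BT D p y).toReal := by
        rw [div_le_div_iff₀ (by linarith) (by linarith)]
        linarith
      rw [add_div, add_div] at this
      linarith)
  rwa [show Λ - m - r / (2 * D) = -(m - y) by rw [hy]; ring, abs_neg] at key

end Pool.Agent.MP_8c549f_pr.PK
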