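import Pool.Agent.MP_8c549f_pr.PK.Kcv
import Pool.Agent.MP_8c549f_pr.PK.Kov
import Pool.Agent.MP_8c549f_pr.PK.Nas
import Pool.Agent.MP_8c549f_pr.PK.Mrl
import Pool.Agent.MP_8c549f_pr.PK.Mru
import Pool.Agent.MP_8c549f_pr.PK.Fv
import Pool.Agent.MP_8c549f_pr.PK.Reg
import Pool.Agent.MP_8c549f_pr.PK.Loc
import Pool.Agent.MP_8c549f_pr.PK.Bone
import Pool.Agent.MP_8c549f_pr.PK.Ful
import Pool.Agent.MP_8c549f_pr.PK.Top

/-! PROJECT PK: composition of the modules. -/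

set_option autoImplicit false

namespace Pool.Agent.MP_8c549f_pr.PK

open Real

theorem place (D : ℕ) (hD : 2 ≤ D) (η : ℝ) (hη : 0 < η) : ∃ p₀ : ℝ, p₀ < 1 ∧
    ∀ p : ℝ, p₀ < p → p < 1 → ∀ v : ℝ → ℝ, (∀ x, 0 < x → HasSpeed D p x (v x)) →
      (∃ m, 0 < m ∧ ∀ x, 0 < x → v x ≤ v m) ∧
      ∀ m, 0 < m → (∀ x, 0 < x → v x ≤ v m) →
        |m - (D * log (1 / (1 - p)) - √(1 - p) / (2 * D))| ≤ η * √(1 - p) :=
  place_of bone (regS bone) (fu mru nas (fv (kov kcv) nas)) (fl mrl (fv (kov kcv) nas)) locS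
    D hD η hη

end Pool.Agent.MP_8c549f_pr.PK
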