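import Pool.Agent.MP_8c549f_pr.FinalB

/-!
PROJECT PK: the place of the largest speed to second order. Statements of the modules.
-/

set_option autoImplicit false

namespace Pool.Agent.MP_8c549f_pr.PK

open MeasureTheory Filter Topology Real
open scoped ENNReal NNReal

/-- the value of the main term for a bush that starts as a straight tube -/
def KCVStmt : Prop := ∀ (D : ℕ), 2 ≤ D → ∀ ζ : ℝ, 0 < ζ → ∃ e₀ : ℝ, 0 < e₀ ∧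
  ∀ p x, 1 - e₀ ≤ p → p < 1 → 1 / 2 ≤ (1 - p) ^ D * exp x → (1 - p) ^ D * exp x ≤ 2 →
    ∀ S : Finset (V D), Shape (e0 D) S → exc S 0 = 0 → exc S 1 = 0 →
      ENNReal.ofReal (1 / (2 * D) - ζ) ≤ T1 p x S 0 2 1 ∧
        T1 p x S 0 2 1 ≤ ENNReal.ofReal (1 / (2 * D) + ζ)

/-- the value of the weight of a regular shape -/
def KOVStmt : Prop := ∀ (D : ℕ), 2 ≤ D → ∃ Q : ℕ, 1 ≤ Q ∧ ∀ ζ : ℝ, 0 < ζ → ∃ e₀ : ℝ, 0 < e₀ ∧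
  ∀ p α β, 1 - e₀ ≤ p → Win D p α β → ∀ S : Finset (V D), Shape (e0 D) S → NuLe Q (exc S) 0 →
    ∀ x ∈ Set.Icc α β, ENNReal.ofReal (1 / (2 * D) - ζ) ≤ PhiS p x S ∧
      PhiS p x S ≤ ENNReal.ofReal (1 / (2 * D) + ζ)

/-- the mass of the irregular bushes, with the true orders of magnitude -/
def NASStmt : Prop := ∀ (D : ℕ), 2 ≤ D → ∀ Q : ℕ, 1 ≤ Q → ∀ θ : ℝ, 0 < θ → ∃ e₀ : ℝ, 0 < e₀ ∧
  ∀ p lam, 1 - e₀ ≤ p → p ≤ 1 → 0 ≤ lam → (1 - p) ^ D * exp lam ≤ 2 → ∀ h ν : ℕ,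
    MBad D (gk 0 lam) p h Q ν ≤ ENNReal.ofReal (θ ^ (ν + 1)) *
      (ENNReal.ofReal √(1 - p) * MB D (gk 0 lam) p h + ENNReal.ofReal ((1 - p) * exp (-lam)))

/-- one more level of a straight tube, lower bound -/
def MRLStmt : Prop := ∀ (D : ℕ), 1 ≤ D → ∀ p lam : ℝ, 0 ≤ p → p ≤ 1 → ∀ h : ℕ,
  ENNReal.ofReal (p * (1 - p) ^ (2 * D)) * (ENNReal.ofReal (2 * (1 - p) * exp lam) +
    ENNReal.ofReal (exp (2 * lam)) * MB D (gk 0 lam) p h) ≤ MB D (gk 0 lam) p (h + 1)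

/-- one more level of a straight tube, upper bound -/
def MRUStmt : Prop := ∀ (D : ℕ), 2 ≤ D → ∀ p lam : ℝ, 0 ≤ p → p ≤ 1 → ∀ h : ℕ,
  MB D (gk 0 lam) p h ≤ MBad D (gk 0 lam) p h 3 0 +
    ENNReal.ofReal ((1 - p) ^ (2 * D)) * (ENNReal.ofReal (2 * (1 - p) * exp lam) +
      ENNReal.ofReal (exp (2 * lam) + 2) * MB D (gk 0 lam) p h)

/-- time in the bushes against their mass -/
def FVStmt : Prop := ∀ (D : ℕ), 2 ≤ D → ∀ ζ : ℝ, 0 < ζ → ∃ e₀ : ℝ, 0 < e₀ ∧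
  ∀ p α β, 1 - e₀ ≤ p → Win D p α β → ∀ x ∈ Set.Icc α β, ∀ h : ℕ,
    ABu D p x h ≤ ENNReal.ofReal (1 / (2 * D) + ζ) * MB D (gk 0 x) p h +
      ENNReal.ofReal (ζ * ((1 - p) * exp (-x))) ∧
    ENNReal.ofReal (1 / (2 * D) - ζ) * MB D (gk 0 x) p h ≤ ABu D p x h +
      ENNReal.ofReal (ζ * ((1 - p) * exp (-x)))

/-- the mean height of a block is close to one -/
def BONEStmt : Prop := ∀ (D : ℕ), 2 ≤ D → ∀ ζ : ℝ, 0 < ζ → ∃ e₀ : ℝ, 0 < e₀ ∧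
  ∀ p x, 1 - e₀ ≤ p → p < 1 → 1 / 2 ≤ (1 - p) ^ D * exp x → (1 - p) ^ D * exp x ≤ 2 →
    ENNReal.ofReal (1 - ζ) ≤ BT D p x ∧ BT D p x ≤ ENNReal.ofReal (1 + ζ)

/-- inverse speed on the full lattice -/
noncomputable def T0 (D : ℕ) (x : ℝ) : ℝ := Zf D x / (exp x - exp (-x))

/-- the regular part of the inverse speed follows the full lattice -/
def REGStmt : Prop := ∀ (D : ℕ), 2 ≤ D → ∀ ζ : ℝ, 0 < ζ → ∃ e₀ : ℝ, 0 < e₀ ∧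
  ∀ p α β, 1 - e₀ ≤ p → Win D p α β → ∀ x ∈ Set.Icc α β, ∀ y ∈ Set.Icc α β,
    AReg D p x ≠ ∞ ∧
    |((AReg D p y).toReal / (BT D p y).toReal - T0 D y) -
      ((AReg D p x).toReal / (BT D p x).toReal - T0 D x)| ≤ ζ * (1 - p) ^ D * |y - x|

/-- time in the bushes at the predicted place -/
def FUStmt : Prop := ∀ (D : ℕ), 2 ≤ D → ∀ ζ : ℝ, 0 < ζ → ∃ e₀ : ℝ, 0 < e₀ ∧
  ∀ p x, 1 - e₀ ≤ p → p < 1 → x = D * log (1 / (1 - p)) - √(1 - p) / (2 * D) → ∀ h : ℕ,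
    ABu D p x h ≤ ENNReal.ofReal ((1 + ζ) * (√(1 - p) * (1 - p) ^ D))

/-- time in the bushes anywhere in the window, lower bound; `s` is the distance below the
critical bias -/
def FLStmt : Prop := ∀ (D : ℕ), 2 ≤ D → ∀ ζ : ℝ, 0 < ζ → ∃ e₀ : ℝ, 0 < e₀ ∧
  ∀ p s F : ℝ, 1 - e₀ ≤ p → p < 1 → |s| ≤ 1 / 4 → 0 ≤ F →
    (∀ h : ℕ, ABu D p (D * log (1 / (1 - p)) - s) h ≤ ENNReal.ofReal F) →
      (1 - ζ) * exp (-s) * ((1 - p) * (1 - p) ^ D) ≤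
        D * (1 - p * exp (-(2 * s))) * (F + ζ * ((1 - p) * (1 - p) ^ D))

/-- real variable form of the last step; `r` is the square root of `1 - p` -/
def LOCStmt : Prop := ∀ (D : ℕ), 1 ≤ D → ∀ η : ℝ, 0 < η → ∃ ζ r₀ : ℝ, 0 < ζ ∧ 0 < r₀ ∧
  ∀ r s L F G b c R : ℝ, 0 < r → r ≤ r₀ → exp (-L) = (r ^ 2) ^ D → |s| ≤ 1 / 4 → 0 ≤ F →
    (1 - ζ) * exp (-s) * (r ^ 2 * (r ^ 2) ^ D) ≤
      D * (1 - (1 - r ^ 2) * exp (-(2 * s))) * (F + ζ * (r ^ 2 * (r ^ 2) ^ D)) →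
    G ≤ (1 + ζ) * (r * (r ^ 2) ^ D) → |b - 1| ≤ ζ → |c - 1| ≤ ζ →
    |R| ≤ ζ * (r ^ 2) ^ D * |s - r / (2 * D)| →
    T0 D (L - s) + F / b ≤ T0 D (L - r / (2 * D)) + G / c + R → |s - r / (2 * D)| ≤ η * r

end Pool.Agent.MP_8c549f_pr.PK
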